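import Pool.Agent.K4H65.CN.Fer

/-!
# The places of the Fermat curve of degree 16 in the affine part
-/

set_option autoImplicit false

namespace Pool.Agent.K4H65.CN

open Pool.Agent.TH144.CN

namespace AffP

variable {K : Type} [Field K] [Algebra ℂ K]

/-- `x = 0` or the order is at least `k` -/
def W (P : Place K) (k : ℤ) (x : K) : Prop := x = 0 ∨ k ≤ P.ord x

section W

variable {P : Place K}

lemma W.mono {k l : ℤ} {x : K} (h : W P k x) (hl : l ≤ k) : W P l x :=
  h.imp id fun h => hl.trans h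

lemma W.inr {k : ℤ} {x : K} (h : k ≤ P.ord x) : W P k x := Or.inr h

lemma W_zero (k : ℤ) : W P k 0 := Or.inl rfl

lemma W.add {k : ℤ} {x y : K} (hx : W P k x) (hy : W P k y) : W P k (x + y) := by
  rcases hx with rfl | hx
  · rw [zero_add]; exact hy
  rcases hy with rfl | hy
  · rw [add_zero]; exact Or.inr hx
  by_cases h0 : x = 0
  · rw [h0, zero_add]; exact Or.inr hy
  by_cases h1 : y = 0
  · rw [h1, add_zero]; exact Or.inr hx
  by_cases h2 : x + y = 0
  · exact Or.inl h2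
  · exact Or.inr ((le_min hx hy).trans (P.ord_add h0 h1 h2))

lemma W.mul {k l : ℤ} {x y : K} (hx : W P k x) (hy : W P l y) : W P (k + l) (x * y) := by
  rcases hx with rfl | hx
  · rw [zero_mul]; exact Or.inl rfl
  rcases hy with rfl | hy
  · rw [mul_zero]; exact Or.inl rfl
  by_cases h0 : x = 0
  · rw [h0, zero_mul]; exact Or.inl rfl
  by_cases h1 : y = 0
  · rw [h1, mul_zero]; exact Or.inl rfl
  right
  rw [P.ord_mul h0 h1]
  exact add_le_add hx hy

lemma W_const (c : ℂ) : W P 0 (algebraMap ℂ K c) := by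
  by_cases hc : c = 0
  · left; rw [hc, map_zero]
  · right; rw [P.ord_const hc]

lemma W.neg {k : ℤ} {x : K} (hx : W P k x) : W P k (-x) := by
  have h := (W_const (P := P) (-1)).mul hx
  rw [zero_add, map_neg, map_one, neg_one_mul] at h
  exact h

lemma W.sub {k : ℤ} {x y : K} (hx : W P k x) (hy : W P k y) : W P k (x - y) := by
  rw [sub_eq_add_neg]; exact hx.add hy.neg

lemma W_one : W P 0 (1 : K) := by
  have := W_const (P := P) 1
  rwa [map_one] at this

lemma W.pow {x : K} (hx : W P 0 x) (n : ℕ) : W P 0 (x ^ n) := by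
  induction n with
  | zero => rw [pow_zero]; exact W_one
  | succ n ih =>
    rw [pow_succ]
    have := ih.mul hx
    rwa [add_zero] at this

lemma not_W1_const {c : ℂ} (hc : c ≠ 0) : ¬ W P 1 (algebraMap ℂ K c) := by
  rintro (h | h)
  · exact hc ((map_eq_zero _).1 h)
  · rw [P.ord_const hc] at h
    omega

lemma ord_one : P.ord 1 = 0 := by
  have := P.ord_const (c := 1) one_ne_zero
  rwa [map_one] at this

lemma ord_inv {x : K} (hx : x ≠ 0) : P.ord x⁻¹ = - P.ord x := by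
  have h := P.ord_mul hx (inv_ne_zero hx)
  rw [mul_inv_cancel₀ hx, ord_one] at h
  omega

lemma ord_pow {x : K} (hx : x ≠ 0) (n : ℕ) : P.ord (x ^ n) = n * P.ord x := by
  induction n with
  | zero => rw [pow_zero, ord_one]; simp
  | succ n ih =>
    rw [pow_succ, P.ord_mul (pow_ne_zero _ hx) hx, ih]
    push_cast
    ring

lemma ord_zpow {x : K} (hx : x ≠ 0) (n : ℤ) : P.ord (x ^ n) = n * P.ord x := by
  rcases n with n | n
  · show P.ord (x ^ (n : ℤ)) = (n : ℤ) * P.ord x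
    rw [zpow_natCast]
    exact ord_pow hx n
  · rw [zpow_negSucc, ord_inv (pow_ne_zero _ hx), ord_pow hx]
    simp only [Int.negSucc_eq]
    push_cast
    ring

end W

/-- the coordinate ring -/
abbrev A (p q : K) : Subalgebra ℂ K := Algebra.adjoin ℂ {p, q}

lemma pA (p q : K) : p ∈ A p q := Algebra.subset_adjoin (by simp)
lemma qA (p q : K) : q ∈ A p q := Algebra.subset_adjoin (by simp)
lemma cA (p q : K) (c : ℂ) : algebraMap ℂ K c ∈ A p q := Subalgebra.algebraMap_mem _ c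

/-- nonvanishing at the centre -/
def NV (p q : K) (p0 q0 : ℂ) (f : K) : Prop := ∃ c : ℂ, c ≠ 0 ∧ ∃ a ∈ A p q, ∃ b ∈ A p q,
  f = algebraMap ℂ K c + (p - algebraMap ℂ K p0) * a + (q - algebraMap ℂ K q0) * b

section

variable {p q : K} {p0 q0 : ℂ}

lemma NV.mem {f : K} (h : NV p q p0 q0 f) : f ∈ A p q := by
  obtain ⟨c, -, a, ha, b, hb, rfl⟩ := h
  exact add_mem (add_mem (cA p q c) (mul_mem (sub_mem (pA p q) (cA p q _)) ha))
    (mul_mem (sub_mem (qA p q) (cA p q _)) hb)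

lemma NV.mul {f g : K} (hf : NV p q p0 q0 f) (hg : NV p q p0 q0 g) : NV p q p0 q0 (f * g) := by
  have hgm := hg.mem
  obtain ⟨c, hc, a, ha, b, hb, rfl⟩ := hf
  obtain ⟨c', hc', a', ha', b', hb', hg'⟩ := hg
  refine ⟨c * c', mul_ne_zero hc hc', a * g + algebraMap ℂ K c * a',
    add_mem (mul_mem ha hgm) (mul_mem (cA p q c) ha'), b * g + algebraMap ℂ K c * b',
    add_mem (mul_mem hb hgm) (mul_mem (cA p q c) hb'), ?_⟩
  rw [map_mul]
  have e : algebraMap ℂ K c * g = algebraMap ℂ K c * (algebraMap ℂ K c' +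
    (p - algebraMap ℂ K p0) * a' + (q - algebraMap ℂ K q0) * b') := by rw [← hg']
  linear_combination e

lemma NV_one : NV p q p0 q0 1 :=
  ⟨1, one_ne_zero, 0, zero_mem _, 0, zero_mem _, by simp⟩

lemma dec {f : K} (hf : f ∈ A p q) : NV p q p0 q0 f ∨ ∃ a ∈ A p q, ∃ b ∈ A p q,
    f = (p - algebraMap ℂ K p0) * a + (q - algebraMap ℂ K q0) * b := by
  have h : ∃ c : ℂ, ∃ a ∈ A p q, ∃ b ∈ A p q,
      f = algebraMap ℂ K c + (p - algebraMap ℂ K p0) * a + (q - algebraMap ℂ K q0) * b := by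
    refine Algebra.adjoin_induction (R := ℂ) (s := {p, q}) (p := fun f _ => ∃ c : ℂ, ∃ a ∈ A p q,
      ∃ b ∈ A p q, f = algebraMap ℂ K c + (p - algebraMap ℂ K p0) * a +
        (q - algebraMap ℂ K q0) * b) ?_ ?_ ?_ ?_ hf
    · intro x hx
      rcases hx with rfl | hx
      · exact ⟨p0, 1, one_mem _, 0, zero_mem _, by ring⟩
      · rw [Set.mem_singleton_iff] at hx
        subst hx
        exact ⟨q0, 0, zero_mem _, 1, one_mem _, by ring⟩
    · intro c
      exact ⟨c, 0, zero_mem _, 0, zero_mem _, by ring⟩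
    · rintro x y hx hy ⟨c, a, ha, b, hb, h1⟩ ⟨c', a', ha', b', hb', h2⟩
      refine ⟨c + c', a + a', add_mem ha ha', b + b', add_mem hb hb', ?_⟩
      rw [map_add, h1, h2]
      ring
    · rintro x y hx hy ⟨c, a, ha, b, hb, h1⟩ ⟨c', a', ha', b', hb', h2⟩
      refine ⟨c * c', a * y + algebraMap ℂ K c * a', add_mem (mul_mem ha hy)
        (mul_mem (cA p q c) ha'), b * y + algebraMap ℂ K c * b', add_mem (mul_mem hb hy)
        (mul_mem (cA p q c) hb'), ?_⟩
      rw [map_mul]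
      linear_combination y * h1 + algebraMap ℂ K c * h2
  obtain ⟨c, a, ha, b, hb, hf'⟩ := h
  by_cases hc : c = 0
  · right
    refine ⟨a, ha, b, hb, ?_⟩
    rw [hf', hc, map_zero, zero_add]
  · exact Or.inl ⟨c, hc, a, ha, b, hb, hf'⟩

/-- the centre of `P` -/
structure Cen (P : Place K) (p q : K) (p0 q0 : ℂ) : Prop where
  hp : 0 < P.ord (p - algebraMap ℂ K p0)
  hq : 0 < P.ord (q - algebraMap ℂ K q0)

lemma ne_of_pos {P : Place K} {x : K} (h : 0 < P.ord x) : x ≠ 0 := by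
  rintro rfl
  rw [P.ord_zero] at h
  omega

variable {P : Place K}

lemma W0_of (hp : W P 0 p) (hq : W P 0 q) {f : K} (hf : f ∈ A p q) : W P 0 f := by
  refine Algebra.adjoin_induction (R := ℂ) (s := {p, q}) (p := fun f _ => W P 0 f) ?_ ?_ ?_ ?_ hf
  · intro x hx
    rcases hx with rfl | hx
    · exact hp
    · rw [Set.mem_singleton_iff] at hx
      subst hx
      exact hq
  · exact fun c => W_const c
  · exact fun x y _ _ hx hy => hx.add hy
  · intro x y _ _ hx hy
    have := hx.mul hy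
    rwa [add_zero] at this

lemma Cen.W0 (h : Cen P p q p0 q0) {f : K} (hf : f ∈ A p q) : W P 0 f := by
  refine W0_of ?_ ?_ hf
  · have := (W.inr h.hp.le).add (W_const p0)
    rwa [sub_add_cancel] at this
  · have := (W.inr h.hq.le).add (W_const q0)
    rwa [sub_add_cancel] at this

lemma NV.ord {f : K} (hf : NV p q p0 q0 f) (h : Cen P p q p0 q0) : f ≠ 0 ∧ P.ord f = 0 := by
  have hfm := hf.mem
  obtain ⟨c, hc, a, ha, b, hb, hf'⟩ := hf
  have h1 : W P 1 ((p - algebraMap ℂ K p0) * a + (q - algebraMap ℂ K q0) * b) := by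
    have e1 := (W.inr (k := 1) h.hp).mul (h.W0 ha)
    have e2 := (W.inr (k := 1) h.hq).mul (h.W0 hb)
    rw [add_zero] at e1 e2
    exact e1.add e2
  have h2 : ¬ W P 1 f := by
    intro h3
    apply not_W1_const (P := P) hc
    have := h3.sub h1
    rw [hf'] at this
    have e : algebraMap ℂ K c + (p - algebraMap ℂ K p0) * a + (q - algebraMap ℂ K q0) * b -
      ((p - algebraMap ℂ K p0) * a + (q - algebraMap ℂ K q0) * b) = algebraMap ℂ K c := by ring
    rwa [e] at this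
  have h3 : f ≠ 0 := fun h0 => h2 (Or.inl h0)
  refine ⟨h3, ?_⟩
  rcases h.W0 hfm with h4 | h4
  · exact absurd h4 h3
  · by_contra h5
    exact h2 (Or.inr (by omega))

/-- the curve -/
structure Cur (p q : K) (p0 q0 : ℂ) : Prop where
  eq : p ^ 16 + q ^ 16 + 1 = 0
  eq0 : p0 ^ 16 + q0 ^ 16 + 1 = 0
  ne : q0 ≠ 0
  gen : IntermediateField.adjoin ℂ {p, q} = ⊤

/-- `(x ^ 16 - c ^ 16) / (x - c)` -/
def TT (x c : K) : K := x ^ 15 + x ^ 14 * c + x ^ 13 * c ^ 2 + x ^ 12 * c ^ 3 + x ^ 11 * c ^ 4 +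
  x ^ 10 * c ^ 5 + x ^ 9 * c ^ 6 + x ^ 8 * c ^ 7 + x ^ 7 * c ^ 8 + x ^ 6 * c ^ 9 + x ^ 5 * c ^ 10 +
  x ^ 4 * c ^ 11 + x ^ 3 * c ^ 12 + x ^ 2 * c ^ 13 + x * c ^ 14 + c ^ 15

omit [Algebra ℂ K] in
lemma TT_mul (x c : K) : (x - c) * TT x c = x ^ 16 - c ^ 16 := by
  unfold TT; ring

lemma TT_mem {S : Subalgebra ℂ K} {x : K} (hx : x ∈ S) (c : ℂ) : TT x (algebraMap ℂ K c) ∈ S := by
  have hc : algebraMap ℂ K c ∈ S := Subalgebra.algebraMap_mem _ c
  unfold TT
  have hm : ∀ i j : ℕ, x ^ i * algebraMap ℂ K c ^ j ∈ S := fun i j =>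
    mul_mem (pow_mem hx i) (pow_mem hc j)
  have h0 := hm 15 0
  have h1 := hm 14 1
  have h14 := hm 1 14
  have h15 := hm 0 15
  simp only [pow_zero, pow_one, one_mul, mul_one] at h0 h1 h14 h15
  exact add_mem (add_mem (add_mem (add_mem (add_mem (add_mem (add_mem (add_mem (add_mem (add_mem
    (add_mem (add_mem (add_mem (add_mem (add_mem h0 h1) (hm _ _)) (hm _ _)) (hm _ _)) (hm _ _))
    (hm _ _)) (hm _ _)) (hm _ _)) (hm _ _)) (hm _ _)) (hm _ _)) (hm _ _)) (hm _ _)) h14) h15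

lemma NV_TT (hq0 : q0 ≠ 0) : NV p q p0 q0 (TT q (algebraMap ℂ K q0)) := by
  rcases dec (p0 := p0) (q0 := q0) (TT_mem (qA p q) q0) with h | h
  · exact h
  · -- direct formula
    refine ⟨16 * q0 ^ 15, mul_ne_zero (by norm_num) (pow_ne_zero _ hq0), 0, zero_mem _,
      15 * algebraMap ℂ K q0 ^ 14 + 14 * q * algebraMap ℂ K q0 ^ 13 +
      13 * q ^ 2 * algebraMap ℂ K q0 ^ 12 + 12 * q ^ 3 * algebraMap ℂ K q0 ^ 11 +
      11 * q ^ 4 * algebraMap ℂ K q0 ^ 10 + 10 * q ^ 5 * algebraMap ℂ K q0 ^ 9 +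
      9 * q ^ 6 * algebraMap ℂ K q0 ^ 8 + 8 * q ^ 7 * algebraMap ℂ K q0 ^ 7 +
      7 * q ^ 8 * algebraMap ℂ K q0 ^ 6 + 6 * q ^ 9 * algebraMap ℂ K q0 ^ 5 +
      5 * q ^ 10 * algebraMap ℂ K q0 ^ 4 + 4 * q ^ 11 * algebraMap ℂ K q0 ^ 3 +
      3 * q ^ 12 * algebraMap ℂ K q0 ^ 2 + 2 * q ^ 13 * algebraMap ℂ K q0 + q ^ 14, ?_, ?_⟩
    · have hc : algebraMap ℂ K q0 ∈ A p q := cA p q q0
      have hn : ∀ n : ℕ, ((n : ℕ) : K) ∈ A p q := fun n => natCast_mem _ n
      have hm : ∀ n i j : ℕ, (n : K) * q ^ i * algebraMap ℂ K q0 ^ j ∈ A p q := fun n i j =>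
        mul_mem (mul_mem (hn n) (pow_mem (qA p q) i)) (pow_mem hc j)
      have h0 := hm 15 0 14
      have h1 := hm 14 1 13
      have h2 := hm 13 2 12
      have h3 := hm 12 3 11
      have h4 := hm 11 4 10
      have h5 := hm 10 5 9
      have h6 := hm 9 6 8
      have h7 := hm 8 7 7
      have h8 := hm 7 8 6
      have h9 := hm 6 9 5
      have h10 := hm 5 10 4
      have h11 := hm 4 11 3
      have h12 := hm 3 12 2
      have h13 := hm 2 13 1
      have h14 := hm 1 14 0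
      push_cast at h0 h1 h2 h3 h4 h5 h6 h7 h8 h9 h10 h11 h12 h13 h14
      simp only [pow_zero, pow_one, one_mul, mul_one] at h0 h1 h13 h14
      exact add_mem (add_mem (add_mem (add_mem (add_mem (add_mem (add_mem (add_mem (add_mem
        (add_mem (add_mem (add_mem (add_mem (add_mem h0 h1) h2) h3) h4) h5) h6) h7) h8) h9) h10)
        h11) h12) h13) h14
    · rw [map_mul, map_pow, map_ofNat]
      unfold TT
      ring

/-- the factorisation of the functions on the curve -/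
lemma fact (hC : Cur p q p0 q0) (h : Cen P p q p0 q0) : ∀ (m : ℕ) (f : K), f ∈ A p q → f ≠ 0 →
    P.ord f ≤ m → ∃ n : ℕ, ∃ a b : K, NV p q p0 q0 a ∧ NV p q p0 q0 b ∧
      f * b = (p - algebraMap ℂ K p0) ^ n * a := by
  intro m
  induction m using Nat.strong_induction_on with
  | _ m ih =>
    intro f hf hf0 hfm
    rcases dec (p0 := p0) (q0 := q0) hf with h1 | ⟨a, ha, b, hb, hab⟩
    · exact ⟨0, f, 1, h1, NV_one, by simp⟩
    · have hT := NV_TT (p := p) (q := q) (p0 := p0) hC.ne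
      set T := TT q (algebraMap ℂ K q0) with hTd
      set U := TT p (algebraMap ℂ K p0) with hUd
      have hUm : U ∈ A p q := TT_mem (pA p q) p0
      have hTm : T ∈ A p q := hT.mem
      have hrel : (p - algebraMap ℂ K p0) * U + (q - algebraMap ℂ K q0) * T = 0 := by
        rw [hTd, hUd, TT_mul, TT_mul]
        have e0 : algebraMap ℂ K p0 ^ 16 + algebraMap ℂ K q0 ^ 16 + 1 = 0 := by
          rw [← map_pow, ← map_pow, ← map_one (algebraMap ℂ K), ← map_add, ← map_add, hC.eq0,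
            map_zero]
        linear_combination hC.eq - e0
      set f1 := T * a - U * b with hf1
      have hf1m : f1 ∈ A p q := sub_mem (mul_mem hTm ha) (mul_mem hUm hb)
      have hTf : T * f = (p - algebraMap ℂ K p0) * f1 := by
        rw [hab, hf1]
        linear_combination b * hrel
      obtain ⟨hT0, hTo⟩ := hT.ord h
      have hp0 := ne_of_pos h.hp
      have hf10 : f1 ≠ 0 := by
        intro h0
        rw [h0, mul_zero] at hTf
        exact mul_ne_zero hT0 hf0 hTf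
      have ho := congrArg P.ord hTf
      rw [P.ord_mul hT0 hf0, P.ord_mul hp0 hf10, hTo, zero_add] at ho
      have hge : 0 ≤ P.ord f1 := by
        rcases h.W0 hf1m with h2 | h2
        · exact absurd h2 hf10
        · exact h2
      have hpos := h.hp
      obtain ⟨n, a', b', ha', hb', hn⟩ := ih (P.ord f1).toNat (by omega) f1 hf1m hf10 (by omega)
      refine ⟨n + 1, a', T * b', ha', hT.mul hb', ?_⟩
      rw [pow_succ]
      linear_combination b' * hTf + (p - algebraMap ℂ K p0) * hn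

lemma factK (hC : Cur p q p0 q0) (h : Cen P p q p0 q0) (f : K) (hf0 : f ≠ 0) :
    ∃ n : ℤ, ∃ a b : K, NV p q p0 q0 a ∧ NV p q p0 q0 b ∧
      f * b = (p - algebraMap ℂ K p0) ^ n * a := by
  have hmem : f ∈ IntermediateField.adjoin ℂ {p, q} := by rw [hC.gen]; trivial
  obtain ⟨r, hr, s, hs, hrs⟩ := (IntermediateField.mem_adjoin_iff_div (F := ℂ)).1 hmem
  have hs0 : s ≠ 0 := by
    rintro rfl
    rw [div_zero] at hrs
    exact hf0 hrs
  have hr0 : r ≠ 0 := by
    rintro rfl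
    rw [zero_div] at hrs
    exact hf0 hrs
  obtain ⟨n, a, b, ha, hb, hn⟩ := fact hC h (P.ord r).toNat r hr hr0 (Int.self_le_toNat _)
  obtain ⟨m, a', b', ha', hb', hm⟩ := fact hC h (P.ord s).toNat s hs hs0 (Int.self_le_toNat _)
  have hp0 := ne_of_pos h.hp
  refine ⟨(n : ℤ) - m, a * b', b * a', ha.mul hb', hb.mul ha', ?_⟩
  have ha'0 := (ha'.ord h).1
  have hb'0 := (hb'.ord h).1
  rw [zpow_sub₀ hp0, zpow_natCast, zpow_natCast, hrs]
  have hpm : (p - algebraMap ℂ K p0) ^ m ≠ 0 := pow_ne_zero _ hp0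
  rw [div_mul_eq_mul_div, div_mul_eq_mul_div, div_eq_div_iff hs0 hpm]
  linear_combination (a' * (p - algebraMap ℂ K p0) ^ m) * hn -
    ((p - algebraMap ℂ K p0) ^ n * a) * hm

lemma ord_fact (h : Cen P p q p0 q0) {f a b : K} {n : ℤ} (hf0 : f ≠ 0) (ha : NV p q p0 q0 a)
    (hb : NV p q p0 q0 b) (hn : f * b = (p - algebraMap ℂ K p0) ^ n * a) :
    P.ord f = n * P.ord (p - algebraMap ℂ K p0) := by
  have hp0 := ne_of_pos h.hp
  obtain ⟨ha0, hao⟩ := ha.ord h
  obtain ⟨hb0, hbo⟩ := hb.ord h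
  have := congrArg P.ord hn
  rw [P.ord_mul hf0 hb0, P.ord_mul (zpow_ne_zero _ hp0) ha0, hao, hbo, ord_zpow hp0] at this
  omega

lemma unif (hC : Cur p q p0 q0) (h : Cen P p q p0 q0) : P.ord (p - algebraMap ℂ K p0) = 1 := by
  obtain ⟨s, hs0, hs⟩ := P.surj
  obtain ⟨n, a, b, ha, hb, hn⟩ := factK hC h s hs0
  have h1 := ord_fact h hs0 ha hb hn
  rw [hs] at h1
  have h2 := h.hp
  exact Int.eq_one_of_mul_eq_one_left h2.le h1.symm

lemma uniq (hC : Cur p q p0 q0) {P P' : Place K} (h : Cen P p q p0 q0) (h' : Cen P' p q p0 q0) :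
    P = P' := by
  have e : P.ord = P'.ord := by
    funext f
    by_cases hf0 : f = 0
    · rw [hf0, P.ord_zero, P'.ord_zero]
    · obtain ⟨n, a, b, ha, hb, hn⟩ := factK hC h f hf0
      rw [ord_fact h hf0 ha hb hn, ord_fact h' hf0 ha hb hn, unif hC h, unif hC h']
  cases P
  cases P'
  simp only at e
  subst e
  rfl

/-- the derivation -/
lemma DA {D : Derivation ℂ K K} (hDp : D p ∈ A p q) (hDq : D q ∈ A p q) {f : K}
    (hf : f ∈ A p q) : D f ∈ A p q := by
  refine Algebra.adjoin_induction (R := ℂ) (s := {p, q}) (p := fun f _ => D f ∈ A p q)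
    ?_ ?_ ?_ ?_ hf
  · intro x hx
    rcases hx with rfl | hx
    · exact hDp
    · rw [Set.mem_singleton_iff] at hx
      subst hx
      exact hDq
  · intro c
    rw [D.map_algebraMap]
    exact zero_mem _
  · intro x y _ _ hx hy
    rw [map_add]
    exact add_mem hx hy
  · intro x y hx' hy' hx hy
    rw [D.leibniz, smul_eq_mul, smul_eq_mul]
    exact add_mem (mul_mem hx' hy) (mul_mem hy' hx)

lemma W.of_mul {P : Place K} {k : ℤ} {x b : K} (hb : b ≠ 0) (hbo : P.ord b = 0)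
    (h : W P k (x * b)) : W P k x := by
  by_cases hx : x = 0
  · exact Or.inl hx
  · rcases h with h | h
    · exact absurd h (mul_ne_zero hx hb)
    · rw [P.ord_mul hx hb, hbo, add_zero] at h
      exact Or.inr h

lemma deriv (hC : Cur p q p0 q0) (h : Cen P p q p0 q0) {D : Derivation ℂ K K}
    (hDp : D p ∈ A p q) (hDq : D q ∈ A p q) (f : K) (hf : 0 ≤ P.ord f) : W P 0 (D f) := by
  by_cases hf0 : f = 0
  · rw [hf0, map_zero]
    exact W_zero _
  obtain ⟨n, a, b, ha, hb, hn⟩ := factK hC h f hf0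
  have h1 := ord_fact h hf0 ha hb hn
  rw [unif hC h, mul_one] at h1
  obtain ⟨m, rfl⟩ : ∃ m : ℕ, n = m := ⟨n.toNat, by omega⟩
  obtain ⟨hb0, hbo⟩ := hb.ord h
  refine W.of_mul hb0 hbo ?_
  have e : D f * b = D ((p - algebraMap ℂ K p0) ^ m * a) - f * D b := by
    rw [← zpow_natCast, ← hn, D.leibniz, smul_eq_mul, smul_eq_mul]
    ring
  rw [e]
  have h2 : (p - algebraMap ℂ K p0) ^ m * a ∈ A p q :=
    mul_mem (pow_mem (sub_mem (pA p q) (cA p q _)) m) ha.mem
  have h3 := (W.inr hf).mul (h.W0 (DA hDp hDq hb.mem))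
  rw [add_zero] at h3
  exact (h.W0 (DA hDp hDq h2)).sub h3

lemma deriv1 (hC : Cur p q p0 q0) (h : Cen P p q p0 q0) {D : Derivation ℂ K K}
    (hDp : NV p q p0 q0 (D p)) (hDq : D q ∈ A p q) (f : K) (hf : P.ord f = 1) :
    P.ord (D f) = 0 := by
  have hf0 : f ≠ 0 := by
    rintro rfl
    rw [P.ord_zero] at hf
    omega
  obtain ⟨n, a, b, ha, hb, hn⟩ := factK hC h f hf0
  have h1 := ord_fact h hf0 ha hb hn
  rw [unif hC h, mul_one, hf] at h1
  subst h1
  obtain ⟨hb0, hbo⟩ := hb.ord h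
  rw [zpow_one] at hn
  have e : D f * b = D p * a + ((p - algebraMap ℂ K p0) * D a - f * D b) := by
    have h2 := congrArg D hn
    rw [D.leibniz, D.leibniz, map_sub, D.map_algebraMap] at h2
    simp only [smul_eq_mul] at h2
    linear_combination h2
  have h3 : W P 1 ((p - algebraMap ℂ K p0) * D a - f * D b) := by
    have e1 := (W.inr (k := 1) h.hp).mul (h.W0 (DA hDp.mem hDq ha.mem))
    have e2 := (W.inr hf.ge).mul (h.W0 (DA hDp.mem hDq hb.mem))
    rw [add_zero] at e1 e2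
    exact e1.sub e2
  obtain ⟨hu0, huo⟩ := (hDp.mul ha).ord h
  have h4 : ¬ W P 1 (D f * b) := by
    intro h5
    rw [e] at h5
    have h6 := h5.sub h3
    rw [add_sub_cancel_right] at h6
    rcases h6 with h6 | h6
    · exact hu0 h6
    · omega
  have h5 := deriv hC h hDp.mem hDq f (by omega)
  have h6 : ¬ W P 1 (D f) := by
    intro h7
    apply h4
    have := h7.mul (W.inr hbo.ge)
    rwa [add_zero] at this
  rcases h5 with h5 | h5
  · exact absurd (Or.inl h5) h6
  · by_contra h7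
    exact h6 (Or.inr (by omega))

end

/-! ### the centre -/

section centre

open Polynomial

variable {p q : K} {P : Place K}

lemma const_ord (hp : W P 0 p) (htr : Transcendental ℂ p)
    (hno : ∀ c : ℂ, ¬ 0 < P.ord (p - algebraMap ℂ K c)) : ∀ (n : ℕ) (F : ℂ[X]), F.natDegree ≤ n →
      F ≠ 0 → P.ord (aeval p F) = 0 := by
  have hne : ∀ F : ℂ[X], F ≠ 0 → aeval p F ≠ 0 := fun F hF h => htr ⟨F, hF, h⟩
  intro n
  induction n with
  | zero =>
    intro F hF hF0
    rw [eq_C_of_natDegree_le_zero hF, aeval_C]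
    refine P.ord_const ?_
    intro h
    apply hF0
    rw [eq_C_of_natDegree_le_zero hF, h, C_0]
  | succ n ih =>
    intro F hF hF0
    by_cases hd : F.natDegree = 0
    · exact ih F (by omega) hF0
    · have hdeg : F.degree ≠ 0 := by
        intro h
        exact hd (natDegree_eq_of_degree_eq_some h)
      obtain ⟨c, hc⟩ := IsAlgClosed.exists_root F hdeg
      obtain ⟨G, hG⟩ := dvd_iff_isRoot.2 hc
      have hG0 : G ≠ 0 := by
        rintro rfl
        rw [mul_zero] at hG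
        exact hF0 hG
      have hGd : G.natDegree ≤ n := by
        rw [hG, natDegree_mul (X_sub_C_ne_zero c) hG0, natDegree_X_sub_C] at hF
        omega
      have hXc : aeval p (X - C c) = p - algebraMap ℂ K c := by simp
      have h1 : p - algebraMap ℂ K c ≠ 0 := by
        rw [← hXc]
        exact hne _ (X_sub_C_ne_zero c)
      have h2 : P.ord (p - algebraMap ℂ K c) = 0 := by
        rcases hp.sub (W_const c) with h | h
        · exact absurd h h1
        · have := hno c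
          omega
      rw [hG, map_mul, hXc, P.ord_mul h1 (hne G hG0), h2, ih G hGd hG0, add_zero]

lemma centre (heq : p ^ 16 + q ^ 16 + 1 = 0) (htr : Transcendental ℂ p)
    (hgen : IntermediateField.adjoin ℂ {p, q} = ⊤) (hp : W P 0 p) (hq : W P 0 q) :
    ∃ c : ℂ, 0 < P.ord (p - algebraMap ℂ K c) := by
  by_contra hcon
  push Not at hcon
  have hno : ∀ c : ℂ, ¬ 0 < P.ord (p - algebraMap ℂ K c) := fun c => not_lt.2 (hcon c)
  -- the elements of `ℂ[p]`
  set R0 : Subalgebra ℂ K := Algebra.adjoin ℂ {p} with hR0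
  have hR : ∀ r : K, r ∈ R0 → r ≠ 0 → P.ord r = 0 := by
    intro r hr hr0
    rw [hR0, Algebra.adjoin_singleton_eq_range_aeval] at hr
    obtain ⟨F, hF⟩ := hr
    have hF' : aeval p F = r := hF
    rw [← hF']
    refine const_ord hp htr hno F.natDegree F le_rfl ?_
    rintro rfl
    rw [map_zero] at hF'
    exact hr0 hF'.symm
  have hpR : p ∈ R0 := Algebra.subset_adjoin rfl
  have hR' : ∀ r : R0, W P 0 (r : K) := by
    intro r
    by_cases h : (r : K) = 0
    · exact Or.inl h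
    · exact Or.inr (hR r r.2 h).ge
  -- integrality
  have hint : ∀ f ∈ A p q, IsIntegral R0 f := by
    intro f hf
    refine Algebra.adjoin_induction (R := ℂ) (s := {p, q}) (p := fun f _ => IsIntegral R0 f)
      ?_ ?_ ?_ ?_ hf
    · intro x hx
      rcases hx with rfl | hx
      · exact isIntegral_algebraMap (x := (⟨x, hpR⟩ : R0))
      · rw [Set.mem_singleton_iff] at hx
        subst hx
        refine ⟨X ^ 16 + C (⟨p, hpR⟩ ^ 16 + 1 : R0), monic_X_pow_add_C _ (by norm_num), ?_⟩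
        rw [eval₂_add, eval₂_pow, eval₂_X, eval₂_C]
        show x ^ 16 + (p ^ 16 + 1) = 0
        linear_combination heq
    · intro c
      have : algebraMap ℂ K c = algebraMap R0 K (algebraMap ℂ R0 c) := rfl
      rw [this]
      exact isIntegral_algebraMap
    · exact fun x y _ _ hx hy => hx.add hy
    · exact fun x y _ _ hx hy => hx.mul hy
  have hA : ∀ f ∈ A p q, f ≠ 0 → P.ord f = 0 := by
    intro f hf hf0
    have hW := W0_of hp hq hf
    have halg : IsAlgebraic R0 f := (hint f hf).isAlgebraic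
    obtain ⟨Q, hQ0, hQ⟩ := halg.exists_nonzero_coeff_and_aeval_eq_zero
      (mem_nonZeroDivisors_of_ne_zero hf0)
    have hsum : ∀ G : R0[X], W P 0 (aeval f G) := by
      intro G
      rw [aeval_eq_sum_range]
      refine Finset.sum_induction _ (fun x => W P 0 x) (fun x y hx hy => hx.add hy) (W_zero 0) ?_
      intro i _
      have : G.coeff i • f ^ i = (G.coeff i : K) * f ^ i := rfl
      rw [this]
      have := (hR' (G.coeff i)).mul (hW.pow i)
      rwa [add_zero] at this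
    have h1 : ((Q.coeff 0 : R0) : K) = - (aeval f (divX Q) * f) := by
      have h2 := congrArg (aeval f) (divX_mul_X_add Q)
      rw [map_add, map_mul, aeval_X, aeval_C, hQ] at h2
      have h3 : algebraMap R0 K (Q.coeff 0) = ((Q.coeff 0 : R0) : K) := rfl
      rw [h3] at h2
      linear_combination h2
    have hc0 : ((Q.coeff 0 : R0) : K) ≠ 0 := fun h => hQ0 (Subtype.ext h)
    have hco := hR _ (Q.coeff 0).2 hc0
    rcases hW with hW | hW
    · exact absurd hW hf0
    · by_contra hne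
      have h4 : W P 1 f := Or.inr (by omega)
      have h5 := ((hsum (divX Q)).mul h4).neg
      rw [← h1, zero_add] at h5
      rcases h5 with h5 | h5
      · exact hc0 h5
      · omega
  obtain ⟨s, hs0, hs⟩ := P.surj
  have hmem : s ∈ IntermediateField.adjoin ℂ {p, q} := by rw [hgen]; trivial
  obtain ⟨a, ha, b, hb, hab⟩ := (IntermediateField.mem_adjoin_iff_div (F := ℂ)).1 hmem
  have hb0 : b ≠ 0 := by
    rintro rfl
    rw [div_zero] at hab
    exact hs0 hab
  have ha0 : a ≠ 0 := by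
    rintro rfl
    rw [zero_div] at hab
    exact hs0 hab
  rw [hab, div_eq_mul_inv, P.ord_mul ha0 (inv_ne_zero hb0), ord_inv hb0, hA a ha ha0,
    hA b hb hb0] at hs
  omega

end centre

end AffP

open AffP

section

variable {K : Type} [Field K] [Algebra ℂ K] {u t : K}

lemma Fer.trt (h : Fer K u t) : Transcendental ℂ t := by
  intro halg
  have h1 : IsAlgebraic ℂ (u ^ 16) := by
    have e : u ^ 16 = -(t ^ 16) - 1 := by linear_combination h.eq
    rw [e]
    exact (halg.pow 16).neg.sub isAlgebraic_one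
  exact h.tr (h1.of_pow (by norm_num))

lemma Fer.t0 (h : Fer K u t) (P : Place K) (hP : 0 ≤ P.ord u) : W P 0 t := by
  by_cases ht : t = 0
  · exact Or.inl ht
  have h1 : W P 0 (t ^ 16) := by
    have e : t ^ 16 = -(u ^ 16) - 1 := by linear_combination h.eq
    rw [e]
    exact ((W.inr hP).pow 16).neg.sub W_one
  rcases h1 with h1 | h1
  · exact absurd h1 (pow_ne_zero _ ht)
  · rw [ord_pow ht] at h1
    right
    push_cast at h1
    omega

/-- (i) the centre -/
theorem aff_center (h : Fer K u t) (P : Place K) (hP : 0 ≤ P.ord u) :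
    ∃ u0 t0 : ℂ, u0 ^ 16 + t0 ^ 16 + 1 = 0 ∧ 0 < P.ord (u - algebraMap ℂ K u0) ∧
      0 < P.ord (t - algebraMap ℂ K t0) := by
  have hu : W P 0 u := W.inr hP
  have ht := h.t0 P hP
  obtain ⟨u0, hu0⟩ := centre h.eq h.tr h.gen hu ht
  obtain ⟨t0, ht0⟩ := centre (p := t) (q := u) (by linear_combination h.eq) h.trt
    (by rw [Set.pair_comm]; exact h.gen) ht hu
  refine ⟨u0, t0, ?_, hu0, ht0⟩
  have hU : W P 0 (TT u (algebraMap ℂ K u0)) := W0_of hu ht (TT_mem (pA u t) u0)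
  have hT : W P 0 (TT t (algebraMap ℂ K t0)) := W0_of hu ht (TT_mem (qA u t) t0)
  have e1 := (W.inr (k := 1) hu0).mul hU
  have e2 := (W.inr (k := 1) ht0).mul hT
  rw [add_zero] at e1 e2
  rw [TT_mul] at e1 e2
  have e3 := (e1.add e2).neg
  have e4 : -(u ^ 16 - algebraMap ℂ K u0 ^ 16 + (t ^ 16 - algebraMap ℂ K t0 ^ 16)) =
      algebraMap ℂ K (u0 ^ 16 + t0 ^ 16 + 1) := by
    rw [map_add, map_add, map_pow, map_pow, map_one]
    linear_combination -h.eq
  rw [e4] at e3
  by_contra hne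
  exact not_W1_const hne e3

lemma Fer.cur (h : Fer K u t) {u0 t0 : ℂ} (h0 : u0 ^ 16 + t0 ^ 16 + 1 = 0) (ht0 : t0 ≠ 0) :
    Cur u t u0 t0 := ⟨h.eq, h0, ht0, h.gen⟩

lemma Fer.cur' (h : Fer K u t) {u0 t0 : ℂ} (h0 : u0 ^ 16 + t0 ^ 16 + 1 = 0) (ht0 : t0 = 0) :
    Cur t u t0 u0 := by
  refine ⟨by linear_combination h.eq, by linear_combination h0, ?_, ?_⟩
  · rintro rfl
    rw [ht0] at h0
    norm_num at h0
  · rw [Set.pair_comm]
    exact h.gen

/-- (ii) the uniformizer -/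
theorem aff_unif (h : Fer K u t) (P : Place K) (u0 t0 : ℂ) (h0 : u0 ^ 16 + t0 ^ 16 + 1 = 0)
    (hu0 : 0 < P.ord (u - algebraMap ℂ K u0)) (ht0 : 0 < P.ord (t - algebraMap ℂ K t0)) :
    (t0 ≠ 0 → P.ord (u - algebraMap ℂ K u0) = 1) ∧ (t0 = 0 → P.ord t = 1) := by
  constructor
  · intro hne
    exact unif (h.cur h0 hne) ⟨hu0, ht0⟩
  · intro he
    have := unif (h.cur' h0 he) (P := P) ⟨ht0, hu0⟩
    rwa [he, map_zero, sub_zero] at this

/-- (iv) the centre determines the place -/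
theorem aff_unique (h : Fer K u t) (P P' : Place K) (u0 t0 : ℂ)
    (h0 : u0 ^ 16 + t0 ^ 16 + 1 = 0)
    (hu0 : 0 < P.ord (u - algebraMap ℂ K u0)) (ht0 : 0 < P.ord (t - algebraMap ℂ K t0))
    (hu0' : 0 < P'.ord (u - algebraMap ℂ K u0)) (ht0' : 0 < P'.ord (t - algebraMap ℂ K t0)) :
    P = P' := by
  by_cases hne : t0 = 0
  · exact uniq (h.cur' h0 hne) ⟨ht0, hu0⟩ ⟨ht0', hu0'⟩
  · exact uniq (h.cur h0 hne) ⟨hu0, ht0⟩ ⟨hu0', ht0'⟩

/-- the derivatives of regular functions are regular -/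
theorem aff_deriv (h : Fer K u t) (P : Place K) (hP : 0 ≤ P.ord u) (D : Derivation ℂ K K)
    (hu : D u = t ^ 15) (ht : D t = -u ^ 15) (f : K) (hf : 0 ≤ P.ord f) :
    D f = 0 ∨ 0 ≤ P.ord (D f) := by
  obtain ⟨u0, t0, h0, hu0, ht0⟩ := aff_center h P hP
  by_cases hne : t0 = 0
  · refine deriv (h.cur' h0 hne) ⟨ht0, hu0⟩ ?_ ?_ f hf
    · rw [ht]; exact neg_mem (pow_mem (qA t u) 15)
    · rw [hu]; exact pow_mem (pA t u) 15
  · refine deriv (h.cur h0 hne) ⟨hu0, ht0⟩ ?_ ?_ f hf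
    · rw [hu]; exact pow_mem (qA u t) 15
    · rw [ht]; exact neg_mem (pow_mem (pA u t) 15)

omit [Algebra ℂ K] in
lemma NV_q [Algebra ℂ K] {p q : K} {p0 q0 : ℂ} (hq0 : q0 ≠ 0) : NV p q p0 q0 q :=
  ⟨q0, hq0, 0, zero_mem _, 1, one_mem _, by ring⟩

lemma NV_pow {p q : K} {p0 q0 : ℂ} {f : K} (hf : NV p q p0 q0 f) (n : ℕ) :
    NV p q p0 q0 (f ^ n) := by
  induction n with
  | zero => rw [pow_zero]; exact NV_one
  | succ n ih => rw [pow_succ]; exact ih.mul hf

lemma NV_neg {p q : K} {p0 q0 : ℂ} {f : K} (hf : NV p q p0 q0 f) : NV p q p0 q0 (-f) := by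
  have h1 : NV p q p0 q0 (algebraMap ℂ K (-1)) :=
    ⟨-1, by norm_num, 0, zero_mem _, 0, zero_mem _, by ring⟩
  have := h1.mul hf
  rwa [map_neg, map_one, neg_one_mul] at this

/-- (iii) the order of the vector field -/
theorem aff_vec (h : Fer K u t) (P : Place K) (hP : 0 ≤ P.ord u) (D : Derivation ℂ K K)
    (hu : D u = t ^ 15) (ht : D t = -u ^ 15) : vectorOrder P D = 0 := by
  have key : ∀ f : K, P.ord f = 1 → P.ord (D f) = 0 := by
    intro f hf
    obtain ⟨u0, t0, h0, hu0, ht0⟩ := aff_center h P hP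
    by_cases hne : t0 = 0
    · have hC := h.cur' h0 hne
      refine deriv1 hC ⟨ht0, hu0⟩ ?_ ?_ f hf
      · rw [ht]; exact NV_neg (NV_pow (NV_q hC.ne) 15)
      · rw [hu]; exact pow_mem (pA t u) 15
    · refine deriv1 (h.cur h0 hne) ⟨hu0, ht0⟩ ?_ ?_ f hf
      · rw [hu]; exact NV_pow (NV_q hne) 15
      · rw [ht]; exact neg_mem (pow_mem (pA u t) 15)
  unfold vectorOrder
  have e : {m : ℤ | ∃ s : K, P.ord s = 1 ∧ P.ord (D s) = m} = {0} := by
    ext m
    constructor
    · rintro ⟨s, h1, h2⟩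
      rw [← h2, key s h1]
      rfl
    · rintro rfl
      obtain ⟨s, -, hs⟩ := P.surj
      exact ⟨s, hs, key s hs⟩
  rw [e, csInf_singleton]

end

end Pool.Agent.K4H65.CN
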