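import Mathlib

set_option autoImplicit false

open Filter Topology

namespace Pool.Agent.K4H65.CN

namespace Blo

open MvPolynomial

/-- the polynomial along a line -/
noncomputable def lin (P : MvPolynomial (Fin 3) ℂ) (x y : Fin 3 → ℂ) : Polynomial ℂ :=
  MvPolynomial.aeval (fun i => Polynomial.C (x i) + Polynomial.X * Polynomial.C (y i - x i)) P

theorem eval_lin (P : MvPolynomial (Fin 3) ℂ) (x y : Fin 3 → ℂ) (z : ℂ) :
    Polynomial.eval z (lin P x y) = eval (x + z • (y - x)) P := by
  unfold lin
  induction P using MvPolynomial.induction_on with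
  | C a => simp
  | add p q hp hq => rw [map_add, Polynomial.eval_add, hp, hq, map_add]
  | mul_X p i hp => rw [map_mul, Polynomial.eval_mul, hp, map_mul]; simp

theorem cont (P : MvPolynomial (Fin 3) ℂ) : Continuous fun x : Fin 3 → ℂ => eval x P :=
  MvPolynomial.continuous_eval P

/-- the set where `P` does not vanish -/
def V1 (P : MvPolynomial (Fin 3) ℂ) : Set (Fin 3 → ℂ) := {x | x ≠ 0 ∧ eval x P ≠ 0}

theorem finite_bad {P : MvPolynomial (Fin 3) ℂ} {y : Fin 3 → ℂ} (hy : y ∈ V1 P) (x : Fin 3 → ℂ) :
    {z : ℂ | x + z • (y - x) ∉ V1 P}.Finite := by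
  have h1 : lin P x y ≠ 0 := by
    intro h
    have h2 := eval_lin P x y 1
    rw [h] at h2
    simp only [Polynomial.eval_zero, one_smul, add_sub_cancel] at h2
    exact hy.2 h2.symm
  have h2 : {z : ℂ | Polynomial.eval z (lin P x y) = 0}.Finite := by
    have h3 : {z : ℂ | Polynomial.eval z (lin P x y) = 0} = ((lin P x y).roots.toFinset : Set ℂ) := by
      ext z
      simp [h1]
    rw [h3]
    exact Finset.finite_toSet _
  have h3 : {z : ℂ | x + z • (y - x) = 0}.Finite := by
    by_cases hxy : y = x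
    · have : {z : ℂ | x + z • (y - x) = 0} = ∅ := by
        ext z
        simp only [hxy, sub_self, smul_zero, add_zero, Set.mem_ofPred_eq, Set.mem_empty_iff_false,
          iff_false]
        rw [← hxy]
        exact hy.1
      rw [this]
      exact Set.finite_empty
    · apply Set.Subsingleton.finite
      intro a ha b hb
      have h4 : (a - b) • (y - x) = 0 := by
        have ha' : x + a • (y - x) = 0 := ha
        have hb' : x + b • (y - x) = 0 := hb
        rw [sub_smul]
        have : a • (y - x) = b • (y - x) := by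
          have := ha'.trans hb'.symm
          exact add_left_cancel this
        rw [this, sub_self]
      rcases smul_eq_zero.1 h4 with h5 | h5
      · exact sub_eq_zero.1 h5
      · exact absurd (sub_eq_zero.1 h5) hxy
  apply (h2.union h3).subset
  intro z hz
  by_cases h4 : x + z • (y - x) = 0
  · right; exact h4
  · left
    show Polynomial.eval z (lin P x y) = 0
    rw [eval_lin]
    by_contra h5
    exact hz ⟨h4, h5⟩

theorem V1_nonempty {P : MvPolynomial (Fin 3) ℂ} (hP : P ≠ 0) : (V1 P).Nonempty := by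
  by_contra h
  rw [Set.not_nonempty_iff_eq_empty] at h
  have h1 : P * X 0 = 0 := by
    apply MvPolynomial.funext
    intro x
    simp only [map_mul, eval_X, map_zero]
    by_contra h2
    have h3 : x ∈ V1 P := by
      refine ⟨?_, left_ne_zero_of_mul h2⟩
      intro h4
      apply right_ne_zero_of_mul h2
      rw [h4]; rfl
    rw [h] at h3
    exact h3
  rcases mul_eq_zero.1 h1 with h2 | h2
  · exact hP h2
  · exact X_ne_zero _ h2

theorem V1_conn {P : MvPolynomial (Fin 3) ℂ} (hP : P ≠ 0) : IsConnected (V1 P) := by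
  obtain ⟨y, hy⟩ := V1_nonempty hP
  refine ⟨⟨y, hy⟩, ?_⟩
  apply isPreconnected_of_forall y
  intro x hx
  have h1 := finite_bad hx y
  have h2 : IsConnected {z : ℂ | y + z • (x - y) ∉ V1 P}ᶜ := by
    apply (Set.Countable.isPathConnected_compl_of_one_lt_rank ?_ h1.countable).isConnected
    rw [Complex.rank_real_complex]
    exact Cardinal.one_lt_two
  refine ⟨(fun z : ℂ => y + z • (x - y)) '' {z : ℂ | y + z • (x - y) ∉ V1 P}ᶜ, ?_, ?_, ?_, ?_⟩
  · rintro _ ⟨z, hz, rfl⟩
    simpa using hz
  · refine ⟨0, ?_, by simp⟩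
    simpa using hy
  · refine ⟨1, ?_, by simp⟩
    simpa using hx
  · apply h2.isPreconnected.image
    fun_prop

theorem V1_dense {P : MvPolynomial (Fin 3) ℂ} (hP : P ≠ 0) (x : Fin 3 → ℂ) :
    x ∈ closure (V1 P) := by
  obtain ⟨y, hy⟩ := V1_nonempty hP
  have h1 := finite_bad hy x
  have h2 : ∀ᶠ z in 𝓝[≠] (0 : ℂ), x + z • (y - x) ∈ V1 P := by
    have h3 : ({z : ℂ | x + z • (y - x) ∉ V1 P} \ {0}).Finite := h1.subset Set.sdiff_subset
    have h4 : ({z : ℂ | x + z • (y - x) ∉ V1 P} \ {0})ᶜ ∈ 𝓝 (0 : ℂ) := by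
      apply h3.isClosed.isOpen_compl.mem_nhds
      simp
    rw [eventually_nhdsWithin_iff]
    filter_upwards [h4] with z hz hz0
    by_contra h5
    exact hz ⟨h5, hz0⟩
  have h3 : Tendsto (fun z : ℂ => x + z • (y - x)) (𝓝[≠] (0 : ℂ)) (𝓝 x) := by
    have h4 : Continuous (fun z : ℂ => x + z • (y - x)) := by fun_prop
    have h5 := h4.tendsto 0
    simp only [zero_smul, add_zero] at h5
    exact h5.mono_left nhdsWithin_le_nhds
  exact mem_closure_of_tendsto h3 h2

theorem hasDeriv (P : MvPolynomial (Fin 3) ℂ) (x η : Fin 3 → ℂ) :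
    HasDerivAt (fun z : ℂ => eval (x + z • η) P) (∑ i, η i * eval x (pderiv i P)) 0 := by
  induction P using MvPolynomial.induction_on with
  | C a =>
    simp only [eval_C, pderiv_C, map_zero, mul_zero, Finset.sum_const_zero]
    exact hasDerivAt_const _ _
  | add p q hp hq =>
    simp only [map_add, mul_add, Finset.sum_add_distrib]
    exact hp.add hq
  | mul_X p j hp =>
    have h1 : HasDerivAt (fun z : ℂ => x j + z * η j) (η j) 0 := by
      have := ((hasDerivAt_id (0 : ℂ)).mul_const (η j)).const_add (x j)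
      simpa using this
    have h2 := hp.mul h1
    have h3 : (fun z : ℂ => eval (x + z • η) (p * X j)) =
        (fun z : ℂ => eval (x + z • η) p) * (fun z : ℂ => x j + z * η j) := by
      funext z
      simp
    have h4 : ∑ i, η i * eval x (pderiv i (p * X j)) = (∑ i, η i * eval x (pderiv i p)) *
        (x j + 0 * η j) + eval (x + (0 : ℂ) • η) p * η j := by
     simp only [pderiv_mul, pderiv_X, map_add, map_mul, eval_X, zero_smul, add_zero, zero_mul,
      mul_add, Finset.sum_add_distrib]
     congr 1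
     · rw [Finset.sum_mul]
       apply Finset.sum_congr rfl
       intro i _
       ring
     · rw [Finset.sum_eq_single j]
       · simp; ring
       · intro i _ hij
         rw [Pi.single_apply, if_neg (Ne.symm hij)]
         simp
       · simp
    rw [h3, h4]
    exact h2

theorem solve {u v : Fin 3 → ℂ} (h : LinearIndependent ℂ ![u, v]) (a b : ℂ) :
    ∃ η : Fin 3 → ℂ, ∑ i, η i * u i = a ∧ ∑ i, η i * v i = b := by
  let A : Matrix (Fin 2) (Fin 3) ℂ := Matrix.of ![u, v]
  have h1 : A.rank = 2 := by
    have := LinearIndependent.rank_matrix (M := A) h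
    simpa using this
  have h2 : LinearMap.range A.mulVecLin = ⊤ := by
    apply Submodule.eq_top_of_finrank_eq
    rw [← Matrix.rank, h1]
    simp
  have h3 : (![a, b] : Fin 2 → ℂ) ∈ LinearMap.range A.mulVecLin := by rw [h2]; trivial
  obtain ⟨η, hη⟩ := h3
  refine ⟨η, ?_, ?_⟩
  · have := congrFun hη 0
    simp only [Matrix.mulVecLin_apply, Matrix.mulVec, dotProduct, Matrix.cons_val_zero] at this
    rw [← this]
    apply Finset.sum_congr rfl
    intro i _
    rw [mul_comm]; rfl
  · have := congrFun hη 1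
    simp only [Matrix.mulVecLin_apply, Matrix.mulVec, dotProduct, Matrix.cons_val_one] at this
    simp only [Matrix.cons_val_zero] at this
    rw [← this]
    apply Finset.sum_congr rfl
    intro i _
    rw [mul_comm]; rfl

end Blo

open Blo

theorem conn_blowup {P R : MvPolynomial (Fin 3) ℂ} (hP : P ≠ 0)
    (h : ∀ x : Fin 3 → ℂ, x ≠ 0 → MvPolynomial.eval x P = 0 → MvPolynomial.eval x R = 0 →
      LinearIndependent ℂ ![fun i => MvPolynomial.eval x (MvPolynomial.pderiv i P),
        fun i => MvPolynomial.eval x (MvPolynomial.pderiv i R)]) :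
    IsConnected {q : (Fin 3 → ℂ) × ℂ × ℂ | q.1 ≠ 0 ∧ q.2 ≠ 0 ∧
      q.2.1 * MvPolynomial.eval q.1 P + q.2.2 * MvPolynomial.eval q.1 R = 0} := by
  have hV0 : IsConnected {x : Fin 3 → ℂ | x ≠ 0 ∧
      (MvPolynomial.eval x P ≠ 0 ∨ MvPolynomial.eval x R ≠ 0)} := by
    apply (V1_conn hP).subset_closure
    · rintro x ⟨h1, h2⟩
      exact ⟨h1, Or.inl h2⟩
    · intro x _
      exact V1_dense hP x
  have hc : IsConnected ({0}ᶜ : Set ℂ) := by
    apply isConnected_compl_singleton_of_one_lt_rank
    rw [Complex.rank_real_complex]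
    exact Cardinal.one_lt_two
  have hM := (hV0.prod hc).image (fun w : (Fin 3 → ℂ) × ℂ =>
    ((w.1, (w.2 * MvPolynomial.eval w.1 R, - (w.2 * MvPolynomial.eval w.1 P))) :
      (Fin 3 → ℂ) × ℂ × ℂ)) (by
      have h1 := (cont P).comp (continuous_fst (X := Fin 3 → ℂ) (Y := ℂ))
      have h2 := (cont R).comp (continuous_fst (X := Fin 3 → ℂ) (Y := ℂ))
      apply Continuous.continuousOn
      exact continuous_fst.prodMk ((continuous_snd.mul h2).prodMk (continuous_snd.mul h1).neg))
  apply hM.subset_closure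
  · rintro _ ⟨⟨x, c⟩, ⟨⟨h1, h2⟩, h3⟩, rfl⟩
    have h3 : c ≠ 0 := h3
    refine ⟨h1, ?_, by simp only; ring⟩
    intro h4
    simp only [Prod.mk_eq_zero, neg_eq_zero, mul_eq_zero, h3, false_or] at h4
    rcases h2 with h2 | h2
    · exact h2 h4.2
    · exact h2 h4.1
  · rintro ⟨x, a, b⟩ ⟨h1, h2, h3⟩
    simp only at h1 h2 h3
    by_cases h4 : MvPolynomial.eval x P = 0 ∧ MvPolynomial.eval x R = 0
    · obtain ⟨η, hη1, hη2⟩ := solve (h x h1 h4.1 h4.2) (-b) a
      have d1 := hasDeriv P x η
      have d2 := hasDeriv R x η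
      rw [hη1, hasDerivAt_iff_tendsto_slope] at d1
      rw [hη2, hasDerivAt_iff_tendsto_slope] at d2
      have s1 : slope (fun z : ℂ => MvPolynomial.eval (x + z • η) P) 0 =
          fun z => z⁻¹ * MvPolynomial.eval (x + z • η) P := by
        funext z
        simp [slope_def_field, h4.1, div_eq_inv_mul]
      have s2 : slope (fun z : ℂ => MvPolynomial.eval (x + z • η) R) 0 =
          fun z => z⁻¹ * MvPolynomial.eval (x + z • η) R := by
        funext z
        simp [slope_def_field, h4.2, div_eq_inv_mul]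
      rw [s1] at d1
      rw [s2] at d2
      have hx : Tendsto (fun z : ℂ => x + z • η) (𝓝[≠] (0 : ℂ)) (𝓝 x) := by
        have h4 : Continuous (fun z : ℂ => x + z • η) := by fun_prop
        have h5 := h4.tendsto 0
        simp only [zero_smul, add_zero] at h5
        exact h5.mono_left nhdsWithin_le_nhds
      have htend : Tendsto (fun z : ℂ => ((x + z • η, (z⁻¹ * MvPolynomial.eval (x + z • η) R,
          - (z⁻¹ * MvPolynomial.eval (x + z • η) P))) : (Fin 3 → ℂ) × ℂ × ℂ))
          (𝓝[≠] (0 : ℂ)) (𝓝 (x, (a, b))) := by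
        have h6 := hx.prodMk_nhds (d2.prodMk_nhds d1.neg)
        simpa using h6
      apply mem_closure_of_tendsto htend
      have e1 : ∀ᶠ z in 𝓝[≠] (0 : ℂ), x + z • η ≠ 0 := hx.eventually_ne h1
      have e2 : ∀ᶠ z in 𝓝[≠] (0 : ℂ), z ≠ 0 := eventually_mem_nhdsWithin
      have e3 : ∀ᶠ z in 𝓝[≠] (0 : ℂ), MvPolynomial.eval (x + z • η) P ≠ 0 ∨
          MvPolynomial.eval (x + z • η) R ≠ 0 := by
        by_cases ha : a = 0
        · have hb : -b ≠ 0 := by
            intro hb
            apply h2
            rw [ha, neg_eq_zero.1 hb]; rfl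
          filter_upwards [d1.eventually_ne hb] with z hz
          exact Or.inl (right_ne_zero_of_mul hz)
        · filter_upwards [d2.eventually_ne ha] with z hz
          exact Or.inr (right_ne_zero_of_mul hz)
      filter_upwards [e1, e2, e3] with z h6 h7 h8
      exact ⟨(x + z • η, z⁻¹), ⟨⟨h6, h8⟩, inv_ne_zero h7⟩, rfl⟩
    · apply subset_closure
      rw [not_and_or] at h4
      by_cases h5 : MvPolynomial.eval x R = 0
      · have h6 : MvPolynomial.eval x P ≠ 0 := by
          rcases h4 with h4 | h4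
          · exact h4
          · exact absurd h5 h4
        have ha : a = 0 := by
          rw [h5, mul_zero, add_zero] at h3
          exact (mul_eq_zero.1 h3).resolve_right h6
        have hb : b ≠ 0 := by
          intro hb
          apply h2
          rw [ha, hb]; rfl
        refine ⟨(x, -b / MvPolynomial.eval x P), ⟨⟨h1, Or.inl h6⟩, ?_⟩, ?_⟩
        · exact div_ne_zero (neg_ne_zero.2 hb) h6
        · simp only [h5, mul_zero, ha]
          rw [div_mul_cancel₀ _ h6, neg_neg]
      · refine ⟨(x, a / MvPolynomial.eval x R), ⟨⟨h1, Or.inr h5⟩, ?_⟩, ?_⟩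
        · apply div_ne_zero _ h5
          intro ha
          apply h2
          rw [ha, zero_mul, zero_add] at h3
          rw [ha, (mul_eq_zero.1 h3).resolve_right h5]; rfl
        · simp only [div_mul_cancel₀ _ h5]
          congr 2
          rw [div_mul_eq_mul_div, ← neg_div, div_eq_iff h5]
          linear_combination -h3

end Pool.Agent.K4H65.CN
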