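import Mathlib

/-!
# Cyclic coverings with a ramification point are connected
-/

set_option autoImplicit false

namespace Pool.Agent.K4H65.CN

open Topology

theorem isProper_pow {n : ℕ} (hn : 1 ≤ n) : IsProperMap (fun z : ℂ => z ^ n) := by
  rw [isProperMap_iff_tendsto_cocompact]
  refine ⟨by fun_prop, ?_⟩
  have h1 : Filter.Tendsto (fun z : ℂ => ‖z ^ n‖) (Filter.cocompact ℂ) Filter.atTop := by
    simp only [norm_pow]
    exact (Filter.tendsto_pow_atTop (by omega)).comp (tendsto_norm_cocompact_atTop (E := ℂ))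
  exact tendsto_cocompact_of_tendsto_dist_comp_atTop (x := 0) (by simpa [dist_zero_right] using h1)

/-- T1 -/
theorem conn_cover {U : Type*} [TopologicalSpace U] [ConnectedSpace U] {g : U → ℂ}
    (hg : Continuous g) (u0 : U) (h0 : g u0 = 0) {n : ℕ} (hn : 1 ≤ n) :
    IsConnected {p : U × ℂ | p.2 ^ n = g p.1} := by
  have hn0 : NeZero n := ⟨by omega⟩
  let F : U × ℂ → U × ℂ := Prod.map id (fun z : ℂ => z ^ n)
  have hFo : IsOpenMap F := IsOpenMap.prodMap IsOpenMap.id (Complex.isOpenQuotientMap_pow n).isOpenMap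
  have hFp : IsProperMap F := IsProperMap.prodMap (Homeomorph.refl U).isProperMap (isProper_pow hn)
  let Γ : Set (U × ℂ) := Set.range fun u => (u, g u)
  have hΓ : ConnectedSpace Γ :=
    isConnected_iff_connectedSpace.1 (isConnected_range (by fun_prop))
  have hE : {p : U × ℂ | p.2 ^ n = g p.1} = F ⁻¹' Γ := by
    ext ⟨u, z⟩
    constructor
    · intro h
      exact ⟨u, Prod.ext rfl h.symm⟩
    · rintro ⟨u', hu'⟩
      have h1 : u' = u := congrArg Prod.fst hu'
      have h2 : g u' = z ^ n := congrArg Prod.snd hu'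
      subst h1
      exact h2.symm
  rw [hE]
  let ρ : F ⁻¹' Γ → Γ := Γ.restrictPreimage F
  have hρo : IsOpenMap ρ := hFo.restrictPreimage Γ
  have hρc : IsClosedMap ρ := (hFp.restrictPreimage Γ).isClosedMap
  have hsurj : Function.Surjective ρ := by
    rintro ⟨_, u, rfl⟩
    obtain ⟨z, hz⟩ := (Complex.isOpenQuotientMap_pow n).surjective (g u)
    have hz' : z ^ n = g u := hz
    refine ⟨⟨(u, z), u, Prod.ext rfl hz'.symm⟩, Subtype.ext (Prod.ext rfl hz')⟩
  have hmem : F (u0, 0) ∈ Γ := ⟨u0, Prod.ext rfl (by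
    change g u0 = (0 : ℂ) ^ n
    rw [h0, zero_pow (by omega)])⟩
  let e0 : F ⁻¹' Γ := ⟨(u0, 0), hmem⟩
  have hfib : ∀ e : F ⁻¹' Γ, ρ e = ρ e0 → e = e0 := by
    rintro ⟨⟨u, z⟩, he⟩ h
    have h1 : F (u, z) = F (u0, 0) := congrArg Subtype.val h
    have h2 : u = u0 := congrArg Prod.fst h1
    have h3 : z ^ n = (0 : ℂ) ^ n := congrArg Prod.snd h1
    rw [zero_pow (by omega)] at h3
    have h4 : z = 0 := pow_eq_zero_iff (by omega) |>.1 h3
    subst h2 h4
    rfl
  rw [isConnected_iff_connectedSpace]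
  have hpre : PreconnectedSpace (F ⁻¹' Γ) := by
    rw [preconnectedSpace_iff_clopen]
    intro s hs
    have key : ∀ t : Set (F ⁻¹' Γ), IsClopen t → t.Nonempty → e0 ∈ t := by
      intro t ht hne
      have h1 : IsClopen (ρ '' t) := ⟨hρc t ht.1, hρo t ht.2⟩
      have h2 : ρ '' t = Set.univ := by
        rcases isClopen_iff.1 h1 with h | h
        · exact absurd h (hne.image ρ).ne_empty
        · exact h
      obtain ⟨e, he, heq⟩ : ρ e0 ∈ ρ '' t := by rw [h2]; trivial
      rw [← hfib e heq]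
      exact he
    by_contra hcon
    push Not at hcon
    have h1 := key s hs hcon.1
    have h2 := key sᶜ hs.compl (Set.nonempty_compl.2 hcon.2)
    exact h2 h1
  exact { toNonempty := ⟨e0⟩ }

end Pool.Agent.K4H65.CN
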