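import Pool.Agent.K4H65.CN.Sm
import Pool.Agent.K4H65.CN.Cov
import Pool.Agent.K4H65.CN.Blo

/-! The surface is connected. -/

set_option autoImplicit false

open MvPolynomial

namespace Pool.Agent.K4H65.CN

open Pool.Agent.TH144.CN

/-- the special member of the pencil as a polynomial -/
noncomputable def Aq : MvPolynomial (Fin 3) ℂ :=
  X 0 ^ 240 * X 2 ^ 16 + X 1 ^ 256 + X 0 ^ 16 * X 1 ^ 240

/-- the other member of the pencil as a polynomial -/
noncomputable def Gq (γ : ℂ) : MvPolynomial (Fin 3) ℂ :=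
  C 2 * (X 0 ^ 256 + X 1 ^ 256 + C γ * X 2 ^ 256)

lemma eval_Aq (x : Fin 3 → ℂ) : eval x Aq = Af x := by simp [Aq, Af]

lemma eval_Gq (γ : ℂ) (x : Fin 3 → ℂ) : eval x (Gq γ) = 2 * Gf γ x := by simp [Gq, Gf]

lemma Aq_ne : Aq ≠ 0 := by
  intro h
  have := eval_Aq ![0, 1, 0]
  rw [h] at this
  simp [Af] at this

lemma pd_A0 (x : Fin 3 → ℂ) : eval x (pderiv 0 Aq) =
    240 * x 0 ^ 239 * x 2 ^ 16 + 16 * x 0 ^ 15 * x 1 ^ 240 := by
  simp [Aq, pderiv_X, Pi.single_apply, Derivation.leibniz_pow, -mul_eq_zero, -mul_eq_mul_left_iff]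
  try ring

lemma pd_A1 (x : Fin 3 → ℂ) : eval x (pderiv 1 Aq) =
    256 * x 1 ^ 255 + 240 * x 0 ^ 16 * x 1 ^ 239 := by
  simp [Aq, pderiv_X, Pi.single_apply, Derivation.leibniz_pow, -mul_eq_zero, -mul_eq_mul_left_iff]
  try ring

lemma pd_A2 (x : Fin 3 → ℂ) : eval x (pderiv 2 Aq) = 16 * x 0 ^ 240 * x 2 ^ 15 := by
  simp [Aq, pderiv_X, Pi.single_apply, Derivation.leibniz_pow, -mul_eq_zero, -mul_eq_mul_left_iff]
  try ring

lemma pd_G0 (γ : ℂ) (x : Fin 3 → ℂ) : eval x (pderiv 0 (Gq γ)) = 2 * (256 * x 0 ^ 255) := by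
  simp [Gq, pderiv_X, Pi.single_apply, Derivation.leibniz_pow, -mul_eq_zero, -mul_eq_mul_left_iff]
  try ring

lemma pd_G1 (γ : ℂ) (x : Fin 3 → ℂ) : eval x (pderiv 1 (Gq γ)) = 2 * (256 * x 1 ^ 255) := by
  simp [Gq, pderiv_X, Pi.single_apply, Derivation.leibniz_pow, -mul_eq_zero, -mul_eq_mul_left_iff]
  try ring

lemma pd_G2 (γ : ℂ) (x : Fin 3 → ℂ) : eval x (pderiv 2 (Gq γ)) = 2 * (256 * γ * x 2 ^ 255) := by
  simp [Gq, pderiv_X, Pi.single_apply, Derivation.leibniz_pow, -mul_eq_zero, -mul_eq_mul_left_iff]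
  try ring

theorem connected {γ : ℂ} (hγ : γ ≠ 0) (h : SmAlg γ) : (Xs γ).Connected := by
  have h1 : IsConnected {q : (Fin 3 → ℂ) × ℂ × ℂ | q.1 ≠ 0 ∧ q.2 ≠ 0 ∧
      q.2.1 * eval q.1 Aq + q.2.2 * eval q.1 (Gq γ) = 0} := by
    refine conn_blowup Aq_ne fun x hx hA hG => ?_
    rw [eval_Aq] at hA
    rw [eval_Gq] at hG
    have hG' : Gf γ x = 0 := by simpa using hG
    rw [LinearIndependent.pair_iff]
    intro s t hst
    by_contra hcon
    have hne : s ≠ 0 ∨ 2 * t ≠ 0 := by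
      by_contra h2
      push Not at h2
      exact hcon ⟨h2.1, by simpa using h2.2⟩
    have e : ∀ i, s * eval x (pderiv i Aq) + t * eval x (pderiv i (Gq γ)) = 0 := by
      intro i
      have := congrFun hst i
      simpa using this
    have e0 := e 0
    have e1 := e 1
    have e2 := e 2
    rw [pd_A0, pd_G0] at e0
    rw [pd_A1, pd_G1] at e1
    rw [pd_A2, pd_G2] at e2
    exact (h x s (2 * t) hx hne (by linear_combination e0) (by linear_combination e1)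
      (by linear_combination e2)).1 ⟨hA, hG'⟩
  obtain ⟨S, hS⟩ : ∃ S : Set ((Fin 3 → ℂ) × ℂ × ℂ), S = {q : (Fin 3 → ℂ) × ℂ × ℂ | q.1 ≠ 0 ∧
      q.2 ≠ 0 ∧ q.2.1 * eval q.1 Aq + q.2.2 * eval q.1 (Gq γ) = 0} := ⟨_, rfl⟩
  rw [← hS] at h1
  haveI : ConnectedSpace S := isConnected_iff_connectedSpace.1 h1
  have hmem : ∀ q : (Fin 3 → ℂ) × ℂ × ℂ, q ∈ S ↔ q.1 ≠ 0 ∧ q.2 ≠ 0 ∧
      q.2.1 * Af q.1 + 2 * q.2.2 * Gf γ q.1 = 0 := by
    intro q
    rw [hS, Set.mem_setOf_eq, eval_Aq, eval_Gq]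
    constructor
    · rintro ⟨a, b, c⟩
      exact ⟨a, b, by linear_combination c⟩
    · rintro ⟨a, b, c⟩
      exact ⟨a, b, by linear_combination c⟩
  -- a point with b 2 = 0
  obtain ⟨z, hz⟩ : ∃ z : ℂ, z ^ 4 = -1 := IsAlgClosed.exists_pow_nat_eq (-1) (by norm_num)
  have hz1 : 1 + 2 * z ≠ 0 := by
    intro h0
    have : z = -1 / 2 := by linear_combination h0 / 2
    rw [this] at hz
    norm_num at hz
  obtain ⟨y, hy⟩ : ∃ y : ℂ, y ^ 256 = -2 * z * γ / (1 + 2 * z) :=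
    IsAlgClosed.exists_pow_nat_eq _ (by norm_num)
  have hq : ((![0, y, 1], (1, z)) : (Fin 3 → ℂ) × ℂ × ℂ) ∈ S := by
    rw [hmem]
    refine ⟨fun h0 => ?_, fun h0 => ?_, ?_⟩
    · have := congrFun h0 2
      simp at this
    · have := congrArg Prod.fst h0
      simp at this
    · have hA : Af ![0, y, 1] = y ^ 256 := by simp [Af]
      have hG : Gf γ ![0, y, 1] = y ^ 256 + γ := by simp [Gf]
      simp only
      rw [hA, hG, hy]
      field_simp
      ring
  have h2 := conn_cover (U := S) (g := fun q => -(q.1.2.1 ^ 4 + q.1.2.2 ^ 4)) (by fun_prop)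
    ⟨_, hq⟩ (by simp only; rw [hz]; norm_num) (n := 4) (by norm_num)
  have h3 := h2.image (fun p : S × ℂ => ((![p.1.1.2.1, p.1.1.2.2, p.2], p.1.1.1) :
    (Fin 3 → ℂ) × (Fin 3 → ℂ))) (by
      apply Continuous.continuousOn
      refine Continuous.prodMk ?_ (by fun_prop)
      refine continuous_pi fun i => ?_
      fin_cases i <;> simp <;> fun_prop)
  unfold ClosedSet.Connected
  convert h3 using 1
  ext ⟨b, x⟩
  rw [Set.mem_setOf_eq, mem_Xs]
  constructor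
  · rintro ⟨hb, hx, e1, e2⟩
    simp only at hb hx e1 e2
    have hb01 : ((b 0, b 1) : ℂ × ℂ) ≠ 0 := by
      intro h0
      have a0 : b 0 = 0 := congrArg Prod.fst h0
      have a1 : b 1 = 0 := congrArg Prod.snd h0
      have a2 : b 2 = 0 := by
        rw [a0, a1] at e1
        simpa using e1
      exact hb (by funext i; fin_cases i <;> simp [a0, a1, a2])
    refine ⟨(⟨(x, (b 0, b 1)), (hmem _).2 ⟨hx, hb01, e2⟩⟩, b 2), ?_, ?_⟩
    · simp only [Set.mem_setOf_eq]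
      linear_combination e1
    · simp only
      refine Prod.ext ?_ rfl
      funext i
      fin_cases i <;> rfl
  · rintro ⟨⟨⟨⟨x', b0, b1⟩, hS'⟩, w⟩, hw, he⟩
    simp only [Set.mem_setOf_eq] at hw
    simp only [Prod.mk.injEq] at he
    obtain ⟨he1, he2⟩ := he
    obtain ⟨a, b', c⟩ := (hmem _).1 hS'
    simp only at a b' c
    subst he2
    rw [← he1]
    refine ⟨fun h0 => b' ?_, a, ?_, ?_⟩
    · have a0 := congrFun h0 0
      have a1 := congrFun h0 1
      simp at a0 a1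
      rw [a0, a1]
      rfl
    · simp only [Matrix.cons_val_zero, Matrix.cons_val_one, Matrix.cons_val]
      linear_combination hw
    · simpa using c

end Pool.Agent.K4H65.CN
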