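import Pool.Agent.K4H65.CN.Fer
import Pool.Agent.H135R2.VS.Der

/-!
# The derivation of the function field of the Fermat curve (helper75 for helper65)
-/

set_option autoImplicit false

namespace Pool.Agent.K4H65.CN

theorem Fer.t_ne_zero {K : Type} [Field K] [Algebra ℂ K] {u t : K} (h : Fer K u t) : t ≠ 0 := by
  intro ht
  have h1 := h.eq
  rw [ht] at h1
  apply h.tr
  refine ⟨Polynomial.X ^ 16 + 1, ?_, ?_⟩
  · intro h0
    have h2 := congrArg (Polynomial.eval 0) h0
    simp at h2
  · simpa using h1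

theorem exists_der {K : Type} [Field K] [Algebra ℂ K] {u t : K} (h : Fer K u t) :
    ∃ D : Derivation ℂ K K, D u = t ^ 15 ∧ D t = - u ^ 15 := by
  have h1 : AlgebraicIndependent ℂ (fun _ : Unit => u) := algebraicIndependent_unique_type_iff.2 h.tr
  obtain ⟨D, hD⟩ := Pool.Agent.H135R2.VS.exists_der h1 (fun _ => t ^ 15)
  have h2 : D u = t ^ 15 := hD ()
  refine ⟨D, h2, ?_⟩
  have h3 := congrArg D h.eq
  rw [map_add, map_add, Derivation.map_one_eq_zero, map_zero, Derivation.leibniz_pow, Derivation.leibniz_pow, h2] at h3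
  simp only [nsmul_eq_mul, smul_eq_mul, Nat.cast_ofNat, add_zero] at h3
  norm_num at h3
  have h4 : t ^ 15 ≠ 0 := pow_ne_zero _ h.t_ne_zero
  have h5 : (16 : K) ≠ 0 := by
    have : CharZero K := charZero_of_injective_algebraMap (algebraMap ℂ K).injective
    norm_num
  apply mul_left_cancel₀ h4
  apply mul_left_cancel₀ h5
  linear_combination h3

end Pool.Agent.K4H65.CN
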