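import Pool.Agent.K4H65.CN.Fer

/-! The function field of the Fermat curve of degree 16 exists. -/

set_option autoImplicit false

namespace Pool.Agent.K4H65.CN

open Pool.Agent.TH144.CN

theorem exists_fer : ∃ (K : Type) (_ : Field K) (_ : Algebra ℂ K) (u t : K), Fer K u t := by
  let L := AlgebraicClosure (RatFunc ℂ)
  let u' : L := algebraMap (RatFunc ℂ) L RatFunc.X
  have htr : Transcendental ℂ u' :=
    (transcendental_algebraMap_iff (algebraMap (RatFunc ℂ) L).injective).2 RatFunc.transcendental_X
  obtain ⟨t', ht'⟩ := IsAlgClosed.exists_pow_nat_eq (k := L) (-(u' ^ 16 + 1)) (n := 16) (by norm_num)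
  let K := IntermediateField.adjoin ℂ ({u', t'} : Set L)
  have hu : u' ∈ K := IntermediateField.subset_adjoin _ _ (by simp)
  have ht : t' ∈ K := IntermediateField.subset_adjoin _ _ (by simp)
  refine ⟨K, inferInstance, inferInstance, ⟨u', hu⟩, ⟨t', ht⟩, ?_, ?_, ?_⟩
  · apply Subtype.ext
    change u' ^ 16 + t' ^ 16 + 1 = 0
    rw [ht']
    ring
  · have h1 : Transcendental ℂ (algebraMap K L ⟨u', hu⟩) := htr
    exact (transcendental_algebraMap_iff (algebraMap K L).injective).1 h1
  · apply IntermediateField.lift_injective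
    rw [IntermediateField.lift_adjoin, IntermediateField.lift_top]
    change IntermediateField.adjoin ℂ ((algebraMap K L) '' {(⟨u', hu⟩ : K), ⟨t', ht⟩}) = K
    rw [Set.image_pair]
    rfl

end Pool.Agent.K4H65.CN
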