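import Pool.Agent.K4H65.CN.Fer

/-! Places of the Fermat curve of degree 16: there is a place with any given affine centre. -/

set_option autoImplicit false

namespace Pool.Agent.K4H65.CN

open Pool.Agent.TH144.CN
open scoped IntermediateField

namespace ExP

theorem exists_root (p : PowerSeries ℂ) (a : ℂ) (ha : a ≠ 0)
    (h : PowerSeries.constantCoeff p = a ^ 16) :
    ∃ U : PowerSeries ℂ, U ^ 16 = p ∧ PowerSeries.constantCoeff U = a := by
  have hH : HenselianRing (PowerSeries ℂ) (Ideal.span {PowerSeries.X}) := inferInstance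
  obtain ⟨U, hU, hUa⟩ := hH.is_henselian (Polynomial.X ^ 16 - Polynomial.C p)
    (Polynomial.monic_X_pow_sub_C p (by norm_num)) (PowerSeries.C a)
    (by
      rw [Ideal.mem_span_singleton, PowerSeries.X_dvd_iff]
      simp [h])
    (by
      have h1 : Polynomial.eval (PowerSeries.C a)
          (Polynomial.derivative (Polynomial.X ^ 16 - Polynomial.C p)) =
            PowerSeries.C (16 * a ^ 15) := by
        rw [map_mul, map_pow, map_ofNat]
        simp only [Polynomial.derivative_sub, Polynomial.derivative_X_pow,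
          Polynomial.derivative_C, sub_zero, Polynomial.eval_mul, Polynomial.eval_pow,
          Polynomial.eval_X]
        norm_num
      rw [h1]
      apply IsUnit.map
      apply IsUnit.map
      exact isUnit_iff_ne_zero.2 (mul_ne_zero (by norm_num) (pow_ne_zero _ ha)))
  refine ⟨U, ?_, ?_⟩
  · have := hU
    simp only [Polynomial.IsRoot, Polynomial.eval_sub, Polynomial.eval_pow, Polynomial.eval_X,
      Polynomial.eval_C] at this
    exact sub_eq_zero.1 this
  · rw [Ideal.mem_span_singleton, PowerSeries.X_dvd_iff] at hUa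
    simp only [map_sub, PowerSeries.constantCoeff_C] at hUa
    exact sub_eq_zero.1 hUa

theorem irr_poly : Irreducible
    (Polynomial.X ^ 16 + Polynomial.C (Polynomial.X ^ 16 + 1 : Polynomial ℂ)) := by
  obtain ⟨ρ, hρ⟩ := IsAlgClosed.exists_pow_nat_eq (k := ℂ) (-1) (n := 16) (by norm_num)
  have hρ0 : ρ ≠ 0 := by
    rintro rfl
    norm_num at hρ
  have hP : (Ideal.span {Polynomial.X - Polynomial.C ρ} : Ideal (Polynomial ℂ)).IsPrime :=
    (Ideal.span_singleton_prime (Polynomial.X_sub_C_ne_zero ρ)).2 (Polynomial.prime_X_sub_C ρ)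
  have hm : (Polynomial.X ^ 16 + Polynomial.C (Polynomial.X ^ 16 + 1 : Polynomial ℂ)).Monic :=
    Polynomial.monic_X_pow_add_C _ (by norm_num)
  have hnd : (Polynomial.X ^ 16 + Polynomial.C (Polynomial.X ^ 16 + 1 : Polynomial ℂ)).natDegree
      = 16 := Polynomial.natDegree_X_pow_add_C
  refine Polynomial.irreducible_of_eisenstein_criterion hP ?_ ?_ ?_ ?_ hm.isPrimitive
  · rw [hm.leadingCoeff]
    exact fun h1 => hP.ne_top ((Ideal.eq_top_iff_one _).2 h1)
  · intro n hn
    rw [Polynomial.degree_eq_natDegree hm.ne_zero, hnd] at hn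
    have hn' : n < 16 := by exact_mod_cast hn
    rw [Polynomial.coeff_add, Polynomial.coeff_X_pow, if_neg (by omega), zero_add,
      Polynomial.coeff_C]
    split_ifs
    · rw [Ideal.mem_span_singleton, Polynomial.dvd_iff_isRoot]
      simp [hρ]
    · exact Ideal.zero_mem _
  · rw [Polynomial.degree_eq_natDegree hm.ne_zero, hnd]
    norm_num
  · rw [Polynomial.coeff_add, Polynomial.coeff_X_pow, if_neg (by norm_num), zero_add,
      Polynomial.coeff_C, if_pos rfl, Ideal.span_singleton_pow, Ideal.mem_span_singleton]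
    rintro ⟨q, hq⟩
    have h2 := congrArg (fun r => Polynomial.eval ρ (Polynomial.derivative r)) hq
    simp only [Polynomial.derivative_add, Polynomial.derivative_one, add_zero, Polynomial.eval_mul, Polynomial.eval_pow, Polynomial.eval_X,
      Polynomial.derivative_mul, Polynomial.derivative_pow, Polynomial.derivative_sub,
      Polynomial.derivative_X, Polynomial.derivative_C, Polynomial.eval_add,
      Polynomial.eval_sub, Polynomial.eval_C, sub_self] at h2
    norm_num at h2
    exact hρ0 h2

theorem irr_rat : Irreducible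
    (Polynomial.X ^ 16 + Polynomial.C (RatFunc.X ^ 16 + 1 : RatFunc ℂ)) := by
  have hm : (Polynomial.X ^ 16 + Polynomial.C (Polynomial.X ^ 16 + 1 : Polynomial ℂ)).Monic :=
    Polynomial.monic_X_pow_add_C _ (by norm_num)
  have := (hm.irreducible_iff_irreducible_map_fraction_map (K := RatFunc ℂ)).1 irr_poly
  simpa [Polynomial.map_add, Polynomial.map_pow] using this

/-- the Laurent series -/
abbrev F : Type := HahnSeries ℤ ℂ

/-- the inclusion of the power series -/
noncomputable def inc : PowerSeries ℂ →+* F := HahnSeries.ofPowerSeries ℤ ℂ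

theorem inc_inj : Function.Injective inc := HahnSeries.ofPowerSeries_injective

theorem inc_C (c : ℂ) : inc (PowerSeries.C c) = algebraMap ℂ F c := by
  rw [HahnSeries.algebraMap_apply']
  rfl

theorem order_pos {p : PowerSeries ℂ} (hp : p ≠ 0) (h0 : PowerSeries.constantCoeff p = 0) :
    0 < (inc p).order := by
  have hp' : inc p ≠ 0 := fun h => hp (inc_inj (by rw [h, map_zero]))
  have h1 : (inc p).coeff (inc p).order ≠ 0 := fun h => hp' (HahnSeries.coeff_order_eq_zero.1 h)
  by_contra h
  apply h1
  have h2 := PowerSeries.coeff_coe (f := p) (inc p).order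
  change (inc p).coeff (inc p).order = _ at h2
  rw [h2]
  split_ifs with h3
  · rfl
  · have h4 : (inc p).order = 0 := by omega
    rw [h4]
    simpa using h0

theorem tr_inc (t0 : ℂ) : Transcendental ℂ (inc (PowerSeries.X + PowerSeries.C t0)) := by
  rw [transcendental_iff]
  intro p hp
  let g : Polynomial ℂ →+* F := inc.comp Polynomial.coeToPowerSeries.ringHom
  have hg : Function.Injective g := inc_inj.comp (Polynomial.coe_injective ℂ)
  have h1 : g (p.comp (Polynomial.X + Polynomial.C t0)) =
      Polynomial.aeval (inc (PowerSeries.X + PowerSeries.C t0)) p := by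
    rw [Polynomial.comp, Polynomial.hom_eval₂, Polynomial.aeval_def]
    congr 1
    · ext1 c
      simp [g, inc_C]
    · simp [g]
  rw [hp] at h1
  have h2 := hg (h1.trans (map_zero g).symm)
  exact Polynomial.comp_X_add_C_eq_zero_iff.1 h2

variable {K : Type} [Field K] [Algebra ℂ K] {u t : K}

theorem tr_t (h : Fer K u t) : Transcendental ℂ t := by
  intro ht
  apply h.tr
  have h1 : IsAlgebraic ℂ (u ^ 16) := by
    have h2 : u ^ 16 = -(t ^ 16 + 1) := by linear_combination h.eq
    rw [h2]
    exact ((ht.pow 16).add isAlgebraic_one).neg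
  exact h1.of_pow (by norm_num)

theorem symm (h : Fer K u t) : Fer K t u where
  eq := by linear_combination h.eq
  tr := tr_t h
  gen := by rw [Set.pair_comm]; exact h.gen

theorem minp (h : Fer K u t) : Irreducible
    (Polynomial.X ^ 16 + Polynomial.C ((IntermediateField.AdjoinSimple.gen ℂ t) ^ 16 + 1)) := by
  let e := RatFunc.algEquivOfTranscendental t (tr_t h)
  have h1 := (MulEquiv.irreducible_iff (Polynomial.mapEquiv e.toRingEquiv)).2 irr_rat
  have h2 : (Polynomial.mapEquiv e.toRingEquiv)
      (Polynomial.X ^ 16 + Polynomial.C (RatFunc.X ^ 16 + 1 : RatFunc ℂ)) =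
      Polynomial.X ^ 16 + Polynomial.C ((IntermediateField.AdjoinSimple.gen ℂ t) ^ 16 + 1) := by
    have h3 : e RatFunc.X = IntermediateField.AdjoinSimple.gen ℂ t := by
      apply Subtype.ext
      rw [RatFunc.algEquivOfTranscendental_X]
      rfl
    rw [Polynomial.mapEquiv_apply]
    simp only [Polynomial.map_add, Polynomial.map_pow, Polynomial.map_X, Polynomial.map_C]
    congr 2
    rw [← h3]
    simp
  rw [h2] at h1
  exact h1

theorem main (h : Fer K u t) (u0 t0 : ℂ) (h0 : u0 ^ 16 + t0 ^ 16 + 1 = 0) (hu0 : u0 ≠ 0) :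
    ∃ P : Place K, 0 < P.ord (u - algebraMap ℂ K u0) ∧ 0 < P.ord (t - algebraMap ℂ K t0) := by
  -- the image of `t`
  let T : PowerSeries ℂ := PowerSeries.X + PowerSeries.C t0
  obtain ⟨U, hU, hU0⟩ := exists_root (-(T ^ 16 + 1)) u0 hu0 (by
    simp only [T, map_neg, map_add, map_pow, map_one, PowerSeries.constantCoeff_X,
      PowerSeries.constantCoeff_C, zero_add]
    linear_combination -h0)
  have htr : Transcendental ℂ (inc T) := tr_inc t0
  let ψ : ℂ⟮t⟯ →ₐ[ℂ] F := (ℂ⟮inc T⟯.val).comp
    ((RatFunc.algEquivOfTranscendental (inc T) htr).toAlgHom.comp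
      (RatFunc.algEquivOfTranscendental t (tr_t h)).symm.toAlgHom)
  have hψ : ψ (IntermediateField.AdjoinSimple.gen ℂ t) = inc T := by
    change ((RatFunc.algEquivOfTranscendental (inc T) htr)
      ((RatFunc.algEquivOfTranscendental t (tr_t h)).symm
        (IntermediateField.AdjoinSimple.gen ℂ t)) : F) = inc T
    rw [RatFunc.algEquivOfTranscendental_symm_gen, RatFunc.algEquivOfTranscendental_X]
  let _ : Algebra ℂ⟮t⟯ F := ψ.toRingHom.toAlgebra
  have hψ' : ∀ x : ℂ⟮t⟯, algebraMap ℂ⟮t⟯ F x = ψ x := fun _ => rfl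
  have hmon : (Polynomial.X ^ 16 +
      Polynomial.C ((IntermediateField.AdjoinSimple.gen ℂ t) ^ 16 + 1)).Monic :=
    Polynomial.monic_X_pow_add_C _ (by norm_num)
  have hroot : Polynomial.aeval u (Polynomial.X ^ 16 +
      Polynomial.C ((IntermediateField.AdjoinSimple.gen ℂ t) ^ 16 + 1)) = 0 := by
    simp only [map_add, map_pow, Polynomial.aeval_X, Polynomial.aeval_C, map_one,
      IntermediateField.AdjoinSimple.algebraMap_gen]
    linear_combination h.eq
  have hmin := minpoly.eq_of_irreducible_of_monic (minp h) hroot hmon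
  have hint : IsIntegral ℂ⟮t⟯ u := ⟨_, hmon, hroot⟩
  have hmem : inc U ∈ (minpoly ℂ⟮t⟯ u).aroots F := by
    rw [Polynomial.mem_aroots, ← hmin]
    refine ⟨hmon.ne_zero, ?_⟩
    simp only [map_add, map_pow, Polynomial.aeval_X, Polynomial.aeval_C, map_one, hψ', hψ]
    rw [← map_pow, hU]
    simp
  have htop : IntermediateField.adjoin ℂ⟮t⟯ {u} = ⊤ := by
    apply IntermediateField.restrictScalars_injective ℂ
    rw [IntermediateField.adjoin_adjoin_left, IntermediateField.restrictScalars_top, ← h.gen,
      Set.union_comm]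
    rfl
  let φ : K →ₐ[ℂ⟮t⟯] F := ((IntermediateField.algHomAdjoinIntegralEquiv ℂ⟮t⟯ hint).symm
    ⟨inc U, hmem⟩).comp ((IntermediateField.equivOfEq htop).symm.toAlgHom.comp
      IntermediateField.topEquiv.symm.toAlgHom)
  have hφu : φ u = inc U := by
    have := IntermediateField.algHomAdjoinIntegralEquiv_symm_apply_gen ℂ⟮t⟯ hint ⟨inc U, hmem⟩
    exact this
  have hφt : φ t = inc T := by
    have h1 : φ (algebraMap ℂ⟮t⟯ K (IntermediateField.AdjoinSimple.gen ℂ t)) = inc T := by
      rw [φ.commutes, hψ', hψ]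
    exact h1
  have hφc : ∀ c : ℂ, φ (algebraMap ℂ K c) = inc (PowerSeries.C c) := by
    intro c
    have h1 : algebraMap ℂ K c = algebraMap ℂ⟮t⟯ K (algebraMap ℂ ℂ⟮t⟯ c) := rfl
    rw [h1, φ.commutes, hψ', ψ.commutes, inc_C]
  have hφi : Function.Injective φ := φ.toRingHom.injective
  have hφ0 : ∀ {f : K}, f ≠ 0 → φ f ≠ 0 := fun hf h => hf (hφi (h.trans (map_zero φ).symm))
  let P : Place K :=
    { ord := fun f => (φ f).order
      ord_zero := by simp
      ord_mul := fun {f g} hf hg => by
        rw [map_mul, HahnSeries.order_mul (hφ0 hf) (hφ0 hg)]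
      ord_add := fun {f g} hf hg hfg => by
        rw [map_add]
        exact HahnSeries.min_order_le_order_add (by rw [← map_add]; exact hφ0 hfg)
      ord_const := fun {c} hc => by
        rw [hφc, inc, HahnSeries.ofPowerSeries_C, HahnSeries.order_C]
      surj := ⟨t - algebraMap ℂ K t0, fun h2 => ?_, ?_⟩ }
  · refine ⟨P, ?_, ?_⟩
    · change 0 < (φ (u - algebraMap ℂ K u0)).order
      rw [map_sub, hφu, hφc, ← map_sub]
      refine order_pos (fun h2 => ?_) (by simp [hU0])
      have h3 : φ (u - algebraMap ℂ K u0) = 0 := by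
        rw [map_sub, hφu, hφc, ← map_sub, h2, map_zero]
      have h4 : u = algebraMap ℂ K u0 := sub_eq_zero.1 (hφi (h3.trans (map_zero φ).symm))
      exact h.tr (h4 ▸ isAlgebraic_algebraMap u0)
    · change 0 < (φ (t - algebraMap ℂ K t0)).order
      rw [map_sub, hφt, hφc, ← map_sub]
      refine order_pos (fun h2 => ?_) (by simp [T])
      simp [T] at h2
  · have h4 : t = algebraMap ℂ K t0 := sub_eq_zero.1 h2
    exact tr_t h (h4 ▸ isAlgebraic_algebraMap t0)
  · rw [map_sub, hφt, hφc, ← map_sub]
    simp [T, inc]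

end ExP

/-- There is a place with a given affine centre. -/
theorem exists_place {K : Type} [Field K] [Algebra ℂ K] {u t : K} (h : Fer K u t) (u0 t0 : ℂ)
    (h0 : u0 ^ 16 + t0 ^ 16 + 1 = 0) :
    ∃ P : Place K, 0 < P.ord (u - algebraMap ℂ K u0) ∧ 0 < P.ord (t - algebraMap ℂ K t0) := by
  by_cases hu0 : u0 = 0
  · have ht0 : t0 ≠ 0 := by
      rintro rfl
      rw [hu0] at h0
      norm_num at h0
    obtain ⟨P, h1, h2⟩ := ExP.main (ExP.symm h) t0 u0 (by linear_combination h0) ht0
    exact ⟨P, h2, h1⟩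
  · exact ExP.main h u0 t0 h0 hu0

end Pool.Agent.K4H65.CN
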