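import Pool.Agent.TH144.CN.Defs

/-! The function field of the Fermat curve of degree 16, and the cuspidal curve. -/

set_option autoImplicit false

namespace Pool.Agent.K4H65.CN

open Pool.Agent.TH144.CN

/-- `K` is the function field of the Fermat curve `u ^ 16 + t ^ 16 + 1 = 0`. -/
structure Fer (K : Type) [Field K] [Algebra ℂ K] (u t : K) : Prop where
  eq : u ^ 16 + t ^ 16 + 1 = 0
  tr : Transcendental ℂ u
  gen : IntermediateField.adjoin ℂ {u, t} = ⊤

/-- homogeneous coordinates (first factor) of the generic point of the curve `Z` -/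
noncomputable def zb (K : Type) [Field K] [Algebra ℂ K] (ζ : ℂ) : Fin 3 → K :=
  ![1, 0, algebraMap ℂ K ζ]

/-- homogeneous coordinates (second factor) of the generic point of the curve `Z` -/
def zx {K : Type} [Field K] (u t : K) : Fin 3 → K := ![1, u, u ^ 15 * t]

end Pool.Agent.K4H65.CN
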