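import Pool.Agent.K4H65.CN.Aff
import Pool.Agent.K4H65.CN.ExP
import Pool.Agent.K4H65.CN.Der

/-! The intersection number of the cuspidal curve. -/

set_option autoImplicit false

namespace Pool.Agent.K4H65.CN

open Pool.Agent.TH144.CN

theorem finsum_const_on {α : Type*} {I : Set α} (hI : I.Finite) {f : α → ℤ} {c : ℤ}
    (h1 : ∀ P ∈ I, f P = c) (h0 : ∀ P, P ∉ I → f P = 0) : ∑ᶠ P, f P = I.ncard * c := by
  classical
  have e : (fun P => f P) = fun P => ∑ᶠ (_ : P ∈ I), c := by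
    funext P
    by_cases h : P ∈ I
    · simp [h, h1 P h]
    · simp [h, h0 P h]
  rw [e, finsum_mem_eq_finite_toFinset_sum _ hI, Finset.sum_const, nsmul_eq_mul,
    Set.ncard_eq_toFinset_card _ hI]

theorem roots16 : {y : ℂ | y ^ 16 = -1}.Finite ∧ {y : ℂ | y ^ 16 = -1}.ncard = 16 := by
  classical
  have hp : IsPrimitiveRoot (Complex.exp (2 * Real.pi * Complex.I / (16 : ℕ))) 16 :=
    Complex.isPrimitiveRoot_exp 16 (by norm_num)
  have e : {y : ℂ | y ^ 16 = -1} = ↑((Polynomial.nthRoots 16 (-1 : ℂ)).toFinset) := by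
    ext y
    simp [Polynomial.mem_nthRoots]
  rw [e]
  refine ⟨Finset.finite_toSet _, ?_⟩
  rw [Set.ncard_coe_finset, Multiset.toFinset_card_of_nodup (hp.nthRoots_nodup (by norm_num)),
    hp.card_nthRoots, if_pos (IsAlgClosed.exists_pow_nat_eq _ (by norm_num))]

section places

variable {K : Type} [Field K] [Algebra ℂ K]

theorem ord_one (P : Place K) : P.ord 1 = 0 := by
  have := P.ord_const (c := 1) one_ne_zero
  rwa [map_one] at this

theorem ord_neg (P : Place K) (f : K) : P.ord (-f) = P.ord f := by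
  by_cases hf : f = 0
  · rw [hf, neg_zero]
  have h1 : P.ord (-1 : K) = 0 := by
    have := P.ord_const (c := -1) (by norm_num)
    rwa [map_neg, map_one] at this
  have h2 : -f = (-1) * f := by ring
  rw [h2, P.ord_mul (by norm_num) hf, h1, zero_add]

theorem ord_inv (P : Place K) (f : K) : P.ord f⁻¹ = -P.ord f := by
  by_cases hf : f = 0
  · rw [hf, inv_zero, P.ord_zero, neg_zero]
  have := P.ord_mul hf (inv_ne_zero hf)
  rw [mul_inv_cancel₀ hf, ord_one] at this
  omega

theorem ord_pow (P : Place K) {f : K} (hf : f ≠ 0) (n : ℕ) : P.ord (f ^ n) = n * P.ord f := by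
  induction n with
  | zero => simp [ord_one]
  | succ n ih =>
    rw [pow_succ, P.ord_mul (pow_ne_zero n hf) hf, ih]
    push_cast
    ring

/-- the order of a sum of elements of different orders -/
theorem ord_add_lt (P : Place K) {f g : K} (hf : f ≠ 0) (h : g = 0 ∨ P.ord f < P.ord g) :
    f + g ≠ 0 ∧ P.ord (f + g) = P.ord f := by
  rcases h with rfl | h
  · simpa using hf
  by_cases hg : g = 0
  · rw [hg]; simpa using hf
  have h1 : f + g ≠ 0 := by
    intro h0
    have : f = -g := by linear_combination h0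
    rw [this, ord_neg] at h
    omega
  refine ⟨h1, le_antisymm ?_ ?_⟩
  · have h2 := P.ord_add h1 (neg_ne_zero.2 hg) (by simpa using hf)
    rw [add_neg_cancel_right, ord_neg] at h2
    rcases min_le_iff.1 h2 with h3 | h3
    · exact h3
    · omega
  · have h2 := P.ord_add hf hg h1
    omega

variable {u t : K} (h : Fer K u t)

include h

theorem Fer.u_ne : u ≠ 0 := by
  rintro rfl
  exact h.tr isAlgebraic_zero

theorem Fer.sub_ne (c : ℂ) : u - algebraMap ℂ K c ≠ 0 := by
  intro h0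
  have : u = algebraMap ℂ K c := by linear_combination h0
  rw [this] at h
  exact h.tr (isAlgebraic_algebraMap c)

/-- a derivation of a uniformizer at an affine place -/
theorem unif_deriv (P : Place K) (hP : 0 ≤ P.ord u) {D : Derivation ℂ K K} (hu : D u = t ^ 15)
    (ht : D t = -u ^ 15) {τ : K} (hτ : P.ord τ = 1) : D τ ≠ 0 ∧ P.ord (D τ) = 0 := by
  have hu0 := h.u_ne
  have ht0 := h.t_ne_zero
  obtain ⟨u0, t0, h0, h1, h2⟩ := aff_center h P hP
  obtain ⟨h3, h4⟩ := aff_unif h P u0 t0 h0 h1 h2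
  obtain ⟨σ, hσ0, hσ1, hσ2, hσ3⟩ : ∃ σ : K, σ ≠ 0 ∧ P.ord σ = 1 ∧ D σ ≠ 0 ∧ P.ord (D σ) = 0 := by
    by_cases ht00 : t0 = 0
    · refine ⟨t, ht0, h4 ht00, ?_, ?_⟩
      · rw [ht]; exact neg_ne_zero.2 (pow_ne_zero _ hu0)
      · rw [ht, ord_neg, ord_pow P hu0]
        have hu00 : u0 ≠ 0 := by
          rintro rfl
          rw [ht00] at h0
          norm_num at h0
        have h5 := (ord_add_lt P (f := algebraMap ℂ K u0) (g := u - algebraMap ℂ K u0)
          (by simpa using hu00) (Or.inr (by rw [P.ord_const hu00]; exact h1))).2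
        rw [add_sub_cancel, P.ord_const hu00] at h5
        rw [h5, mul_zero]
    · refine ⟨u - algebraMap ℂ K u0, h.sub_ne u0, h3 ht00, ?_, ?_⟩
      · rw [map_sub, D.map_algebraMap, sub_zero, hu]
        exact pow_ne_zero _ ht0
      · rw [map_sub, D.map_algebraMap, sub_zero, hu, ord_pow P ht0]
        have h5 := (ord_add_lt P (f := algebraMap ℂ K t0) (g := t - algebraMap ℂ K t0)
          (by simpa using ht00) (Or.inr (by rw [P.ord_const ht00]; exact h2))).2
        rw [add_sub_cancel, P.ord_const ht00] at h5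
        rw [h5, mul_zero]
  have hτ0 : τ ≠ 0 := by
    rintro rfl
    rw [P.ord_zero] at hτ
    omega
  obtain ⟨w, hw⟩ : ∃ w, w = τ * σ⁻¹ := ⟨_, rfl⟩
  have hw0 : w ≠ 0 := by rw [hw]; exact mul_ne_zero hτ0 (inv_ne_zero hσ0)
  have hwo : P.ord w = 0 := by
    rw [hw, P.ord_mul hτ0 (inv_ne_zero hσ0), ord_inv, hτ, hσ1]
    norm_num
  have hτw : τ = w * σ := by
    rw [hw]; field_simp
  have hD : D τ = w * D σ + σ * D w := by
    rw [hτw, D.leibniz]
    simp only [smul_eq_mul]
  have h5 := aff_deriv h P hP D hu ht w (by omega)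
  have h6 : P.ord (w * D σ) = 0 := by
    rw [P.ord_mul hw0 hσ2, hwo, hσ3]
    norm_num
  have h7 := ord_add_lt P (f := w * D σ) (g := σ * D w) (mul_ne_zero hw0 hσ2) (by
    rcases h5 with h5 | h5
    · left; rw [h5, mul_zero]
    · by_cases hDw : D w = 0
      · left; rw [hDw, mul_zero]
      · right
        rw [h6, P.ord_mul hσ0 hDw, hσ1]
        omega)
  rw [hD]
  exact ⟨h7.1, h7.2.trans h6⟩

/-- the coordinates at infinity -/
theorem fer_inf : Fer K (t * u⁻¹) u⁻¹ := by
  have hu0 := h.u_ne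
  refine ⟨?_, ?_, ?_⟩
  · have := h.eq
    field_simp
    linear_combination this
  · intro hy
    have hy' : t * u⁻¹ ∈ (algebraMap ℂ K).range :=
      minpoly.mem_range_of_degree_eq_one ℂ _ (IsAlgClosed.degree_eq_one_of_irreducible ℂ
        (minpoly.irreducible (isAlgebraic_iff_isIntegral.1 hy)))
    obtain ⟨c, hc⟩ := hy'
    obtain ⟨d, hd⟩ : ∃ d : ℂ, d ^ 16 = -1 - c ^ 16 := IsAlgClosed.exists_pow_nat_eq _ (by norm_num)
    apply h.tr
    have e1 : (u⁻¹) ^ 16 = algebraMap ℂ K (-1 - c ^ 16) := by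
      rw [map_sub, map_neg, map_one, map_pow, hc]
      have := h.eq
      field_simp
      linear_combination this
    have e2 : IsAlgebraic ℂ (u⁻¹) := by
      refine IsAlgebraic.of_pow (n := 16) (by norm_num) ?_
      rw [e1]
      exact isAlgebraic_algebraMap _
    have e3 := e2.inv
    rwa [inv_inv] at e3
  · have h1 := h.gen
    rw [eq_top_iff, ← h1, IntermediateField.adjoin_le_iff]
    have hu : u ∈ IntermediateField.adjoin ℂ {t * u⁻¹, u⁻¹} := by
      have := (IntermediateField.adjoin ℂ {t * u⁻¹, u⁻¹}).inv_mem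
        (IntermediateField.subset_adjoin ℂ {t * u⁻¹, u⁻¹} (show u⁻¹ ∈ _ by simp))
      rwa [inv_inv] at this
    intro z hz
    rcases hz with rfl | hz
    · exact hu
    · rw [Set.mem_singleton_iff] at hz
      rw [hz]
      have h2 := (IntermediateField.adjoin ℂ {t * u⁻¹, u⁻¹}).mul_mem
        (IntermediateField.subset_adjoin ℂ {t * u⁻¹, u⁻¹} (show t * u⁻¹ ∈ _ by simp)) hu
      rwa [mul_assoc, inv_mul_cancel₀ hu0, mul_one] at h2

theorem der_inf {D : Derivation ℂ K K} (hu : D u = t ^ 15) (ht : D t = -u ^ 15) :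
    (u⁻¹ ^ 13 • D) (t * u⁻¹) = u⁻¹ ^ 15 ∧ (u⁻¹ ^ 13 • D) u⁻¹ = -(t * u⁻¹) ^ 15 := by
  have hu0 := h.u_ne
  have h1 := h.eq
  have hi : D u⁻¹ = -u⁻¹ ^ 2 * D u := by
    rw [Derivation.leibniz_inv]
    simp only [smul_eq_mul]
  constructor
  · rw [Derivation.smul_apply, D.leibniz, hi, hu, ht]
    simp only [smul_eq_mul]
    field_simp
    linear_combination (-1 : K) * h1
  · rw [Derivation.smul_apply, hi, hu]
    simp only [smul_eq_mul]
    field_simp

/-- the places at infinity -/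
theorem inf_place (P : Place K) (hP : P.ord u < 0) :
    P.ord u = -1 ∧ P.ord t = -1 ∧ 0 ≤ P.ord (t * u⁻¹) ∧
      ∃ y0 : ℂ, y0 ^ 16 = -1 ∧ 0 < P.ord (t * u⁻¹ - algebraMap ℂ K y0) ∧
        0 < P.ord (u⁻¹ - algebraMap ℂ K 0) := by
  have hu0 := h.u_ne
  have ht0 := h.t_ne_zero
  have e : P.ord t = P.ord u := by
    have h1 : t ^ 16 = -(u ^ 16 + 1) := by linear_combination h.eq
    have h2 := (ord_add_lt P (f := u ^ 16) (g := 1) (pow_ne_zero _ hu0) (Or.inr (by
      rw [ord_one, ord_pow P hu0]; push_cast; omega))).2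
    have h3 : P.ord (t ^ 16) = P.ord (u ^ 16) := by rw [h1, ord_neg, h2]
    rw [ord_pow P ht0, ord_pow P hu0] at h3
    push_cast at h3
    omega
  have hy : P.ord (t * u⁻¹) = 0 := by
    rw [P.ord_mul ht0 (inv_ne_zero hu0), ord_inv, e]
    omega
  have h' := fer_inf h
  obtain ⟨y0, s0, g0, g1, g2⟩ := aff_center h' P (by omega)
  have hs : 0 < P.ord u⁻¹ := by rw [ord_inv]; omega
  have hs0 : s0 = 0 := by
    by_contra hs0
    have h5 := (ord_add_lt P (f := -algebraMap ℂ K s0) (g := u⁻¹)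
      (neg_ne_zero.2 (by simpa using hs0)) (Or.inr (by rw [ord_neg, P.ord_const hs0]; exact hs))).2
    rw [ord_neg, P.ord_const hs0] at h5
    have e6 : -algebraMap ℂ K s0 + u⁻¹ = u⁻¹ - algebraMap ℂ K s0 := by ring
    rw [e6] at h5
    omega
  subst hs0
  have h6 := (aff_unif h' P _ _ g0 g1 g2).2 rfl
  rw [ord_inv] at h6
  refine ⟨by omega, by omega, by omega, y0, by linear_combination g0, g1, g2⟩

theorem inf_card : {P : Place K | P.ord u < 0}.Finite ∧ {P : Place K | P.ord u < 0}.ncard = 16 := by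
  classical
  have hu0 := h.u_ne
  have h' := fer_inf h
  have hc : ∀ P : Place K, P.ord u < 0 → ∃ y0 : ℂ, y0 ^ 16 = -1 ∧
      0 < P.ord (t * u⁻¹ - algebraMap ℂ K y0) ∧ 0 < P.ord (u⁻¹ - algebraMap ℂ K 0) :=
    fun P hP => (inf_place h P hP).2.2.2
  have key : ∀ y : ℂ, y ^ 16 = -1 → ∃ P : Place K, P.ord u < 0 ∧
      0 < P.ord (t * u⁻¹ - algebraMap ℂ K y) ∧ 0 < P.ord (u⁻¹ - algebraMap ℂ K 0) := by
    intro y hy
    obtain ⟨P, h1, h2⟩ := exists_place h' y 0 (by rw [hy]; norm_num)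
    refine ⟨P, ?_, h1, h2⟩
    rw [map_zero, sub_zero, ord_inv] at h2
    omega
  obtain ⟨y1, hy1⟩ : ∃ y : ℂ, y ^ 16 = -1 := IsAlgClosed.exists_pow_nat_eq _ (by norm_num)
  obtain ⟨P1, -⟩ := key y1 hy1
  haveI : Nonempty (Place K) := ⟨P1⟩
  choose! g hg1 hg2 hg3 using key
  have himg : {P : Place K | P.ord u < 0} = g '' {y : ℂ | y ^ 16 = -1} := by
    ext P
    constructor
    · intro hP
      obtain ⟨y0, h1, h2, h3⟩ := hc P hP
      refine ⟨y0, h1, ?_⟩
      exact aff_unique h' (g y0) P y0 0 (by rw [h1]; norm_num) (hg2 y0 h1) (hg3 y0 h1) h2 h3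
    · rintro ⟨y, hy, rfl⟩
      exact hg1 y hy
  have hinj : Set.InjOn g {y : ℂ | y ^ 16 = -1} := by
    intro y hy y' hy' e
    by_contra hne
    have h1 := hg2 y hy
    have h2 := hg2 y' hy'
    rw [← e] at h2
    have h3 := (ord_add_lt (g y) (f := algebraMap ℂ K (y' - y))
      (g := t * u⁻¹ - algebraMap ℂ K y') (by
        rw [Ne, map_eq_zero]; exact sub_ne_zero.2 (Ne.symm hne)) (Or.inr (by
        rw [(g y).ord_const (sub_ne_zero.2 (Ne.symm hne))]; exact h2))).2
    rw [(g y).ord_const (sub_ne_zero.2 (Ne.symm hne)), map_sub] at h3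
    have e4 : algebraMap ℂ K y' - algebraMap ℂ K y + (t * u⁻¹ - algebraMap ℂ K y') =
      t * u⁻¹ - algebraMap ℂ K y := by ring
    rw [e4] at h3
    omega
  rw [himg]
  exact ⟨roots16.1.image g, by rw [Set.ncard_image_of_injOn hinj]; exact roots16.2⟩

end places

end Pool.Agent.K4H65.CN
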