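import Pool.Agent.K4H65.CN.Idx

/-! The intersection number of the cuspidal curve. -/

set_option autoImplicit false

namespace Pool.Agent.K4H65.CN

open Pool.Agent.TH144.CN

variable {K : Type} [Field K] [Algebra ℂ K] {u t : K} (h : Fer K u t)

include h in
theorem Fer.ord_t (P : Place K) (hP : 0 ≤ P.ord u) : 0 ≤ P.ord t := by
  have hu0 := h.u_ne
  have ht0 := h.t_ne_zero
  by_contra hcon
  push Not at hcon
  have h1 : u ^ 16 = -(t ^ 16 + 1) := by linear_combination h.eq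
  have h2 := (ord_add_lt P (f := t ^ 16) (g := 1) (pow_ne_zero _ ht0) (Or.inr (by
    rw [ord_one, ord_pow P ht0]; push_cast; omega))).2
  have h3 : P.ord (u ^ 16) = P.ord (t ^ 16) := by rw [h1, ord_neg, h2]
  rw [ord_pow P ht0, ord_pow P hu0] at h3
  push_cast at h3
  omega

theorem ord_c (P : Place K) (c : ℂ) : P.ord (algebraMap ℂ K c) = 0 := by
  by_cases hc : c = 0
  · rw [hc, map_zero, P.ord_zero]
  · exact P.ord_const hc

theorem ord_div (P : Place K) {f g : K} (hf : f ≠ 0) (hg : g ≠ 0) :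
    P.ord (f / g) = P.ord f - P.ord g := by
  rw [div_eq_mul_inv, P.ord_mul hf (inv_ne_zero hg), ord_inv]
  ring

theorem ord_sub_c (P : Place K) {f : K} (hf : f ≠ 0) (hf1 : 0 < P.ord f) {c : ℂ} (hc : c ≠ 0) :
    P.ord (f - algebraMap ℂ K c) = 0 := by
  have h5 := (ord_add_lt P (f := -algebraMap ℂ K c) (g := f)
      (neg_ne_zero.2 (by simpa using hc)) (Or.inr (by rw [ord_neg, P.ord_const hc]; exact hf1))).2
  rw [ord_neg, P.ord_const hc] at h5
  rwa [neg_add_eq_sub] at h5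

/-- the coordinates of the first factor are constant -/
theorem zb_const {P : Place K} {ζ : ℂ} {f : K} (hf : f ∈ affineCoords P (zb K ζ)) :
    ∃ c : ℂ, f = algebraMap ℂ K c := by
  obtain ⟨i, j, -, -, rfl⟩ := hf
  have key : ∀ i, ∃ c : ℂ, zb K ζ i = algebraMap ℂ K c := by
    intro i
    fin_cases i
    · exact ⟨1, by simp [zb]⟩
    · exact ⟨0, by simp [zb]⟩
    · exact ⟨ζ, by simp [zb]⟩
  obtain ⟨a, ha⟩ := key i
  obtain ⟨b, hb⟩ := key j
  exact ⟨b / a, by rw [ha, hb, map_div₀]⟩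

include h

theorem zx_ne (i : Fin 3) : zx u t i ≠ 0 := by
  have hu0 := h.u_ne
  have ht0 := h.t_ne_zero
  fin_cases i
  · simp [zx]
  · simpa [zx] using hu0
  · simpa [zx] using ⟨hu0, ht0⟩

section aff

variable (P : Place K) (hP : 0 ≤ P.ord u)

theorem ord_x2 : P.ord (u ^ 15 * t) = 15 * P.ord u + P.ord t := by
  rw [P.ord_mul (pow_ne_zero _ h.u_ne) h.t_ne_zero, ord_pow P h.u_ne]
  norm_num

include hP

theorem aff_coord {f : K} (hf : f ∈ affineCoords P (zx u t)) : 0 ≤ P.ord f := by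
  obtain ⟨i, j, hi, hm, rfl⟩ := hf
  have ht := h.ord_t P hP
  have h0 := hm 0 (zx_ne h 0)
  have e0 : P.ord (zx u t 0) = 0 := by simp [zx, ord_one]
  rw [e0] at h0
  rw [ord_div P (zx_ne h j) hi]
  have hj : 0 ≤ P.ord (zx u t j) := by
    fin_cases j
    · simp [zx, ord_one]
    · simpa [zx] using hP
    · have : P.ord (zx u t 2) = 15 * P.ord u + P.ord t := ord_x2 h P
      simp only [Fin.reduceFinMk] at this ⊢
      rw [this]
      omega
  omega

theorem one_mem : (1 : K) ∈ affineCoords P (zx u t) ∧ u ∈ affineCoords P (zx u t) ∧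
    u ^ 15 * t ∈ affineCoords P (zx u t) := by
  have ht := h.ord_t P hP
  have hm : ∀ l, zx u t l ≠ 0 → P.ord (zx u t 0) ≤ P.ord (zx u t l) := by
    intro l _
    have e0 : P.ord (zx u t 0) = 0 := by simp [zx, ord_one]
    rw [e0]
    fin_cases l
    · simp [zx, ord_one]
    · simpa [zx] using hP
    · have : P.ord (zx u t 2) = 15 * P.ord u + P.ord t := ord_x2 h P
      simp only [Fin.reduceFinMk] at this ⊢
      rw [this]
      omega
  refine ⟨⟨0, 0, zx_ne h 0, hm, by simp [zx]⟩, ⟨0, 1, zx_ne h 0, hm, by simp [zx]⟩,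
    ⟨0, 2, zx_ne h 0, hm, by simp [zx]⟩⟩

/-- an affine coordinate which is a uniformizer -/
theorem aff_unif' : (∃ c : ℂ, u - algebraMap ℂ K c ≠ 0 ∧ P.ord (u - algebraMap ℂ K c) = 1 ∧
      P.ord t = 0) ∨ (P.ord u = 0 ∧ P.ord t = 1) := by
  obtain ⟨u0, t0, h0, h1, h2⟩ := aff_center h P hP
  obtain ⟨h3, h4⟩ := aff_unif h P u0 t0 h0 h1 h2
  by_cases ht0 : t0 = 0
  · right
    refine ⟨?_, h4 ht0⟩
    have hu0 : u0 ≠ 0 := by
      rintro rfl
      rw [ht0] at h0
      norm_num at h0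
    have h5 := (ord_add_lt P (f := algebraMap ℂ K u0) (g := u - algebraMap ℂ K u0)
          (by simpa using hu0) (Or.inr (by rw [P.ord_const hu0]; exact h1))).2
    rwa [add_sub_cancel, P.ord_const hu0] at h5
  · left
    refine ⟨u0, h.sub_ne u0, h3 ht0, ?_⟩
    have h5 := (ord_add_lt P (f := algebraMap ℂ K t0) (g := t - algebraMap ℂ K t0)
          (by simpa using ht0) (Or.inr (by rw [P.ord_const ht0]; exact h2))).2
    rwa [add_sub_cancel, P.ord_const ht0] at h5

theorem branch_aff (ζ : ℂ) : branchMult P (zb K ζ) (zx u t) = 1 := by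
  have h1 : 1 ∈ {m : ℕ | 0 < m ∧ ∃ f ∈ affineCoords P (zb K ζ) ∪ affineCoords P (zx u t),
      ∃ c : ℂ, f - algebraMap ℂ K c ≠ 0 ∧ P.ord (f - algebraMap ℂ K c) = m} := by
    refine ⟨one_pos, ?_⟩
    rcases aff_unif' h P hP with ⟨c, h1, h2, -⟩ | ⟨h1, h2⟩
    · exact ⟨u, Or.inr (one_mem h P hP).2.1, c, h1, by rw [h2]; rfl⟩
    · refine ⟨u ^ 15 * t, Or.inr (one_mem h P hP).2.2, 0, ?_, ?_⟩
      · rw [map_zero, sub_zero]
        exact mul_ne_zero (pow_ne_zero _ h.u_ne) h.t_ne_zero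
      · rw [map_zero, sub_zero, ord_x2 h P, h1, h2]
        rfl
  have h2 := Nat.sInf_le h1
  have h3 := (Nat.sInf_mem ⟨1, h1⟩).1
  unfold branchMult
  omega

theorem tangent_aff (ζ : ℂ) {D : Derivation ℂ K K} (hu : D u = t ^ 15) (ht : D t = -u ^ 15) :
    tangentOrder P (zb K ζ) (zx u t) D = 0 := by
  have hu0 := h.u_ne
  have ht0 := h.t_ne_zero
  refine IsLeast.csInf_eq ⟨?_, ?_⟩
  · rcases aff_unif' h P hP with ⟨c, h1, h2, h3⟩ | ⟨h1, h2⟩
    · refine ⟨u, Or.inr (one_mem h P hP).2.1, ?_, ?_⟩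
      · rw [hu]; exact pow_ne_zero _ ht0
      · rw [hu, ord_pow P ht0, h3, mul_zero]
    · have e : D (u ^ 15 * t) = -u ^ 30 + 15 * (u ^ 14 * t ^ 16) := by
        rw [D.leibniz, Derivation.leibniz_pow, hu, ht]
        simp only [smul_eq_mul, nsmul_eq_mul]
        push_cast
        ring
      have h15 : (15 : K) = algebraMap ℂ K 15 := (map_ofNat (algebraMap ℂ K) 15).symm
      have h7 := ord_add_lt P (f := -u ^ 30) (g := 15 * (u ^ 14 * t ^ 16))
        (neg_ne_zero.2 (pow_ne_zero _ hu0)) (Or.inr (by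
          rw [ord_neg, ord_pow P hu0, h15, P.ord_mul (by rw [← h15]; rw [h15]; simp)
            (mul_ne_zero (pow_ne_zero _ hu0) (pow_ne_zero _ ht0)), ord_c,
            P.ord_mul (pow_ne_zero _ hu0) (pow_ne_zero _ ht0), ord_pow P hu0, ord_pow P ht0,
            h1, h2]
          norm_num))
      refine ⟨u ^ 15 * t, Or.inr (one_mem h P hP).2.2, ?_, ?_⟩
      · rw [e]; exact h7.1
      · rw [e, h7.2, ord_neg, ord_pow P hu0, h1, mul_zero]
  · rintro m ⟨f, hf, hf0, rfl⟩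
    rcases hf with hf | hf
    · obtain ⟨c, rfl⟩ := zb_const hf
      exact absurd (D.map_algebraMap c) hf0
    · rcases aff_deriv h P hP D hu ht f (aff_coord h P hP hf) with h1 | h1
      · exact absurd h1 hf0
      · exact h1

end aff

section inf

variable (P : Place K) (hP : P.ord u < 0)

include hP

theorem inf_ords : P.ord (zx u t 0) = 0 ∧ P.ord (zx u t 1) = -1 ∧ P.ord (zx u t 2) = -16 := by
  obtain ⟨h1, h2, -⟩ := inf_place h P hP
  refine ⟨by simp [zx, ord_one], by simpa [zx] using h1, ?_⟩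
  have : P.ord (zx u t 2) = 15 * P.ord u + P.ord t := ord_x2 h P
  rw [this, h1, h2]
  norm_num

theorem inf_coord {f : K} (hf : f ∈ affineCoords P (zx u t)) :
    f = (u ^ 15 * t)⁻¹ ∨ f = (u ^ 14 * t)⁻¹ ∨ f = 1 := by
  obtain ⟨i, j, hi, hm, rfl⟩ := hf
  obtain ⟨e0, e1, e2⟩ := inf_ords h P hP
  have h0 := hm 2 (zx_ne h 2)
  have hi2 : i = 2 := by
    fin_cases i
    · simp only [Fin.zero_eta] at h0
      omega
    · simp only [Fin.mk_one] at h0
      omega
    · rfl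
  have hu0 := h.u_ne
  have ht0 := h.t_ne_zero
  subst hi2
  fin_cases j
  · left
    simp [zx]
  · right; left
    simp only [zx, Fin.mk_one, Matrix.cons_val_one, Matrix.cons_val]
    field_simp
  · right; right
    exact div_self (zx_ne h 2)

theorem inf_mem : (u ^ 15 * t)⁻¹ ∈ affineCoords P (zx u t) ∧
    (u ^ 14 * t)⁻¹ ∈ affineCoords P (zx u t) := by
  obtain ⟨e0, e1, e2⟩ := inf_ords h P hP
  have hu0 := h.u_ne
  have ht0 := h.t_ne_zero
  have hm : ∀ l, zx u t l ≠ 0 → P.ord (zx u t 2) ≤ P.ord (zx u t l) := by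
    intro l _
    fin_cases l
    · simp only [Fin.zero_eta]; omega
    · simp only [Fin.mk_one]; omega
    · exact le_refl _
  refine ⟨⟨2, 0, zx_ne h 2, hm, by simp [zx]⟩, ⟨2, 1, zx_ne h 2, hm, ?_⟩⟩
  simp only [zx, Matrix.cons_val_one, Matrix.cons_val]
  field_simp

theorem inf_ord15 : P.ord (u ^ 15 * t)⁻¹ = 16 ∧ P.ord (u ^ 14 * t)⁻¹ = 15 := by
  obtain ⟨h1, h2, -⟩ := inf_place h P hP
  have hu0 := h.u_ne
  have ht0 := h.t_ne_zero
  constructor
  · rw [ord_inv, P.ord_mul (pow_ne_zero _ hu0) ht0, ord_pow P hu0, h1, h2]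
    norm_num
  · rw [ord_inv, P.ord_mul (pow_ne_zero _ hu0) ht0, ord_pow P hu0, h1, h2]
    norm_num

theorem branch_inf (ζ : ℂ) : branchMult P (zb K ζ) (zx u t) = 15 := by
  have hu0 := h.u_ne
  have ht0 := h.t_ne_zero
  obtain ⟨h1, h2⟩ := inf_ord15 h P hP
  have hne1 : (u ^ 15 * t)⁻¹ ≠ 0 := inv_ne_zero (mul_ne_zero (pow_ne_zero _ hu0) ht0)
  have hne2 : (u ^ 14 * t)⁻¹ ≠ 0 := inv_ne_zero (mul_ne_zero (pow_ne_zero _ hu0) ht0)
  have hleast : IsLeast {m : ℕ | 0 < m ∧ ∃ f ∈ affineCoords P (zb K ζ) ∪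
      affineCoords P (zx u t), ∃ c : ℂ, f - algebraMap ℂ K c ≠ 0 ∧
      P.ord (f - algebraMap ℂ K c) = m} 15 := by
    constructor
    · refine ⟨by norm_num, (u ^ 14 * t)⁻¹, Or.inr (inf_mem h P hP).2, 0, ?_, ?_⟩
      · rwa [map_zero, sub_zero]
      · rw [map_zero, sub_zero, h2]
        rfl
    · rintro m ⟨hm, f, hf, c, hfc, hfm⟩
      have hcc : ∀ a : ℂ, f ≠ algebraMap ℂ K a := by
        rintro a rfl
        rw [← map_sub, ord_c] at hfm
        omega
      rcases hf with hf | hf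
      · obtain ⟨a, ha⟩ := zb_const hf
        exact absurd ha (hcc a)
      · rcases inf_coord h P hP hf with rfl | rfl | rfl
        · by_cases hc : c = 0
          · rw [hc, map_zero, sub_zero, h1] at hfm
            omega
          · rw [ord_sub_c P hne1 (by omega) hc] at hfm
            omega
        · by_cases hc : c = 0
          · rw [hc, map_zero, sub_zero, h2] at hfm
            omega
          · rw [ord_sub_c P hne2 (by omega) hc] at hfm
            omega
        · exact absurd (map_one _).symm (hcc 1)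
  exact hleast.csInf_eq

theorem vec_inf {D : Derivation ℂ K K} (hu : D u = t ^ 15) (ht : D t = -u ^ 15) :
    vectorOrder P D = -13 := by
  have hu0 := h.u_ne
  obtain ⟨h1, h2, h3, -⟩ := inf_place h P hP
  obtain ⟨d1, d2⟩ := der_inf h hu ht
  have key : ∀ τ : K, P.ord τ = 1 → P.ord (D τ) = -13 := by
    intro τ hτ
    obtain ⟨h4, h5⟩ := unif_deriv (fer_inf h) P h3 d1 d2 hτ
    rw [Derivation.smul_apply, smul_eq_mul] at h4 h5
    have h6 : D τ ≠ 0 := right_ne_zero_of_mul h4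
    rw [P.ord_mul (pow_ne_zero _ (inv_ne_zero hu0)) h6, ord_pow P (inv_ne_zero hu0), ord_inv,
      h1] at h5
    push_cast at h5
    omega
  obtain ⟨τ, -, hτ⟩ := P.surj
  refine IsLeast.csInf_eq ⟨⟨τ, hτ, key τ hτ⟩, ?_⟩
  rintro m ⟨τ', hτ', rfl⟩
  exact (key τ' hτ').ge

theorem tangent_inf (ζ : ℂ) {D : Derivation ℂ K K} (hu : D u = t ^ 15) (ht : D t = -u ^ 15) :
    tangentOrder P (zb K ζ) (zx u t) D = 1 := by
  have hu0 := h.u_ne
  have ht0 := h.t_ne_zero
  obtain ⟨h1, h2, -⟩ := inf_place h P hP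
  have heq := h.eq
  have ord_lin : ∀ a b : ℂ, b ≠ 0 → (algebraMap ℂ K b * u ^ 16 + algebraMap ℂ K a ≠ 0 ∧
      P.ord (algebraMap ℂ K b * u ^ 16 + algebraMap ℂ K a) = -16) := by
    intro a b hb
    have hb' : algebraMap ℂ K b ≠ 0 := by simpa using hb
    have e : P.ord (algebraMap ℂ K b * u ^ 16) = -16 := by
      rw [P.ord_mul hb' (pow_ne_zero _ hu0), ord_c, ord_pow P hu0, h1]
      norm_num
    have h7 := ord_add_lt P (f := algebraMap ℂ K b * u ^ 16) (g := algebraMap ℂ K a)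
      (mul_ne_zero hb' (pow_ne_zero _ hu0)) (Or.inr (by rw [e, ord_c]; norm_num))
    exact ⟨h7.1, h7.2.trans e⟩
  have f1 : D (u ^ 15 * t)⁻¹ = (u ^ 16 * t ^ 2)⁻¹ *
      (algebraMap ℂ K 16 * u ^ 16 + algebraMap ℂ K 15) := by
    have e : D (u ^ 15 * t) = -u ^ 30 + 15 * (u ^ 14 * t ^ 16) := by
      rw [D.leibniz, Derivation.leibniz_pow, hu, ht]
      simp only [smul_eq_mul, nsmul_eq_mul]
      push_cast
      ring
    rw [Derivation.leibniz_inv, e]
    simp only [smul_eq_mul, map_ofNat]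
    have ht16 : t ^ 16 = -(1 + u ^ 16) := by linear_combination heq
    rw [ht16]
    field_simp
    ring
  have f2 : D (u ^ 14 * t)⁻¹ = (u ^ 15 * t ^ 2)⁻¹ *
      (algebraMap ℂ K 15 * u ^ 16 + algebraMap ℂ K 14) := by
    have e : D (u ^ 14 * t) = -u ^ 29 + 14 * (u ^ 13 * t ^ 16) := by
      rw [D.leibniz, Derivation.leibniz_pow, hu, ht]
      simp only [smul_eq_mul, nsmul_eq_mul]
      push_cast
      ring
    rw [Derivation.leibniz_inv, e]
    simp only [smul_eq_mul, map_ofNat]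
    have ht16 : t ^ 16 = -(1 + u ^ 16) := by linear_combination heq
    rw [ht16]
    field_simp
    ring
  have hA : ∀ n : ℕ, (u ^ n * t ^ 2)⁻¹ ≠ 0 := fun n =>
    inv_ne_zero (mul_ne_zero (pow_ne_zero _ hu0) (pow_ne_zero _ ht0))
  have hB : ∀ n : ℕ, P.ord (u ^ n * t ^ 2)⁻¹ = n + 2 := by
    intro n
    rw [ord_inv, P.ord_mul (pow_ne_zero _ hu0) (pow_ne_zero _ ht0), ord_pow P hu0, ord_pow P ht0,
      h1, h2]
    push_cast
    ring
  refine IsLeast.csInf_eq ⟨?_, ?_⟩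
  · refine ⟨(u ^ 14 * t)⁻¹, Or.inr (inf_mem h P hP).2, ?_, ?_⟩
    · rw [f2]
      exact mul_ne_zero (hA 15) (ord_lin 14 15 (by norm_num)).1
    · rw [f2, P.ord_mul (hA 15) (ord_lin 14 15 (by norm_num)).1, hB,
        (ord_lin 14 15 (by norm_num)).2]
      norm_num
  · rintro m ⟨f, hf, hf0, rfl⟩
    rcases hf with hf | hf
    · obtain ⟨c, rfl⟩ := zb_const hf
      exact absurd (D.map_algebraMap c) hf0
    · rcases inf_coord h P hP hf with rfl | rfl | rfl
      · rw [f1, P.ord_mul (hA 16) (ord_lin 15 16 (by norm_num)).1, hB,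
          (ord_lin 15 16 (by norm_num)).2]
        norm_num
      · rw [f2, P.ord_mul (hA 15) (ord_lin 14 15 (by norm_num)).1, hB,
          (ord_lin 14 15 (by norm_num)).2]
        norm_num
      · exact absurd (D.map_one_eq_zero) hf0

end inf

theorem index_eq (ζ : ℂ) {D : Derivation ℂ K K} (hu : D u = t ^ 15) (ht : D t = -u ^ 15) :
    indexNumber (zb K ζ) (zx u t) D = -16 ∧ conormalNumber (zb K ζ) (zx u t) D = -16 := by
  obtain ⟨hfin, hcard⟩ := inf_card h
  have s1 : ∑ᶠ P : Place K, vectorOrder P D = 16 * (-13) := by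
    rw [finsum_const_on hfin (c := -13) (fun P hP => vec_inf h P hP hu ht)
      (fun P hP => aff_vec h P (not_lt.1 hP) D hu ht), hcard]
    norm_num
  have s2 : ∑ᶠ P : Place K, ((branchMult P (zb K ζ) (zx u t) : ℤ) - 1) = 16 * 14 := by
    rw [finsum_const_on hfin (c := 14) (fun P hP => by rw [branch_inf h P hP ζ]; norm_num)
      (fun P hP => by rw [branch_aff h P (not_lt.1 hP) ζ]; norm_num), hcard]
    norm_num
  have s3 : ∑ᶠ P : Place K, tangentOrder P (zb K ζ) (zx u t) D = 16 * 1 := by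
    rw [finsum_const_on hfin (c := 1) (fun P hP => tangent_inf h P hP ζ hu ht)
      (fun P hP => tangent_aff h P (not_lt.1 hP) ζ hu ht), hcard]
    norm_num
  unfold indexNumber conormalNumber
  rw [s1, s2, s3]
  norm_num

end Pool.Agent.K4H65.CN
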