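import Pool.Agent.TH144.CN.Surf
import Pool.Agent.K4H65.CN.Fer

/-! Smoothness of the surface. -/

set_option autoImplicit false

open MvPolynomial

namespace Pool.Agent.K4H65.CN

open Pool.Agent.TH144.CN

/-- the condition on the parameter -/
def SmAlg (γ : ℂ) : Prop :=
  ∀ (x : Fin 3 → ℂ) (c0 c1 : ℂ), x ≠ 0 → (c0 ≠ 0 ∨ c1 ≠ 0) →
    c0 * (240 * x 0 ^ 239 * x 2 ^ 16 + 16 * x 0 ^ 15 * x 1 ^ 240) + c1 * (256 * x 0 ^ 255) = 0 →
    c0 * (256 * x 1 ^ 255 + 240 * x 0 ^ 16 * x 1 ^ 239) + c1 * (256 * x 1 ^ 255) = 0 →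
    c0 * (16 * x 0 ^ 240 * x 2 ^ 15) + c1 * (256 * γ * x 2 ^ 255) = 0 →
    ¬(Af x = 0 ∧ Gf γ x = 0) ∧ c1 ^ 4 ≠ -16 * c0 ^ 4

section pd

variable (γ : ℂ) (b x : Fin 3 → ℂ)

lemma pd_E_inl (i : Fin 3) : eval (Sum.elim b x) (pderiv (Sum.inl i) Ep) = 4 * b i ^ 3 := by
  fin_cases i <;> simp [Ep, B, pderiv_X, Pi.single_apply, Derivation.leibniz_pow]

lemma pd_E_inr (i : Fin 3) : eval (Sum.elim b x) (pderiv (Sum.inr i) Ep) = 0 := by
  fin_cases i <;> simp [Ep, B, pderiv_X, Pi.single_apply, Derivation.leibniz_pow]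

lemma pd_F_inl0 : eval (Sum.elim b x) (pderiv (Sum.inl 0) (Fp γ)) = Af x := by
  simp [Fp, Ap, Gp, Y, B, Af, pderiv_X, Pi.single_apply, Derivation.leibniz_pow]

lemma pd_F_inl1 : eval (Sum.elim b x) (pderiv (Sum.inl 1) (Fp γ)) = 2 * Gf γ x := by
  simp [Fp, Ap, Gp, Y, B, Gf, pderiv_X, Pi.single_apply, Derivation.leibniz_pow]
  try ring

lemma pd_F_inl2 : eval (Sum.elim b x) (pderiv (Sum.inl 2) (Fp γ)) = 0 := by
  simp [Fp, Ap, Gp, Y, B, pderiv_X, Pi.single_apply, Derivation.leibniz_pow, -mul_eq_zero,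
    -mul_eq_mul_left_iff]

lemma pd_F_inr0 : eval (Sum.elim b x) (pderiv (Sum.inr 0) (Fp γ)) =
    b 0 * (240 * x 0 ^ 239 * x 2 ^ 16 + 16 * x 0 ^ 15 * x 1 ^ 240) +
      (2 * b 1) * (256 * x 0 ^ 255) := by
  simp [Fp, Ap, Gp, Y, B, pderiv_X, Pi.single_apply, Derivation.leibniz_pow, -mul_eq_zero,
    -mul_eq_mul_left_iff]
  ring

lemma pd_F_inr1 : eval (Sum.elim b x) (pderiv (Sum.inr 1) (Fp γ)) =
    b 0 * (256 * x 1 ^ 255 + 240 * x 0 ^ 16 * x 1 ^ 239) + (2 * b 1) * (256 * x 1 ^ 255) := by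
  simp [Fp, Ap, Gp, Y, B, pderiv_X, Pi.single_apply, Derivation.leibniz_pow, -mul_eq_zero,
    -mul_eq_mul_left_iff]
  ring

lemma pd_F_inr2 : eval (Sum.elim b x) (pderiv (Sum.inr 2) (Fp γ)) =
    b 0 * (16 * x 0 ^ 240 * x 2 ^ 15) + (2 * b 1) * (256 * γ * x 2 ^ 255) := by
  simp [Fp, Ap, Gp, Y, B, pderiv_X, Pi.single_apply, Derivation.leibniz_pow]
  try ring

end pd

theorem smooth {γ : ℂ} (h : SmAlg γ) : (Xs γ).SmoothSurface := by
  refine ⟨Ep, Fp γ, rfl, fun b x hm => ?_⟩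
  obtain ⟨hb, hx, h1, h2⟩ := mem_Xs.1 hm
  rw [LinearIndependent.pair_iff]
  intro s t hst
  have e : ∀ i, s * eval (Sum.elim b x) (pderiv i Ep) + t * eval (Sum.elim b x) (pderiv i (Fp γ)) = 0 := by
    intro i
    have := congrFun hst i
    simpa using this
  have hbne : b 0 ≠ 0 ∨ b 1 ≠ 0 ∨ b 2 ≠ 0 := by
    by_contra hcon
    push Not at hcon
    exact hb (by funext i; fin_cases i <;> simp [hcon.1, hcon.2.1, hcon.2.2])
  have hc : b 0 ≠ 0 ∨ 2 * b 1 ≠ 0 := by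
    by_contra hcon
    push Not at hcon
    have hb1 : b 1 = 0 := by simpa using hcon.2
    have hb2 : b 2 ^ 4 = 0 := by
      rw [hcon.1, hb1] at h1
      simpa using h1
    have hb2' : b 2 = 0 := by simpa using hb2
    rcases hbne with h | h | h
    · exact h hcon.1
    · exact h hb1
    · exact h hb2'
  have e0 := e (Sum.inl 0)
  have e1 := e (Sum.inl 1)
  have e2 := e (Sum.inl 2)
  have e3 := e (Sum.inr 0)
  have e4 := e (Sum.inr 1)
  have e5 := e (Sum.inr 2)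
  rw [pd_E_inl, pd_F_inl0] at e0
  rw [pd_E_inl, pd_F_inl1] at e1
  rw [pd_E_inl, pd_F_inl2] at e2
  rw [pd_E_inr, pd_F_inr0] at e3
  rw [pd_E_inr, pd_F_inr1] at e4
  rw [pd_E_inr, pd_F_inr2] at e5
  have ht : t = 0 := by
    by_contra ht
    have f3 : b 0 * (240 * x 0 ^ 239 * x 2 ^ 16 + 16 * x 0 ^ 15 * x 1 ^ 240) +
      (2 * b 1) * (256 * x 0 ^ 255) = 0 := by
      have : t * (b 0 * (240 * x 0 ^ 239 * x 2 ^ 16 + 16 * x 0 ^ 15 * x 1 ^ 240) +
        (2 * b 1) * (256 * x 0 ^ 255)) = 0 := by linear_combination e3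
      exact (mul_eq_zero.1 this).resolve_left ht
    have f4 : b 0 * (256 * x 1 ^ 255 + 240 * x 0 ^ 16 * x 1 ^ 239) +
        (2 * b 1) * (256 * x 1 ^ 255) = 0 := by
      have : t * (b 0 * (256 * x 1 ^ 255 + 240 * x 0 ^ 16 * x 1 ^ 239) +
        (2 * b 1) * (256 * x 1 ^ 255)) = 0 := by linear_combination e4
      exact (mul_eq_zero.1 this).resolve_left ht
    have f5 : b 0 * (16 * x 0 ^ 240 * x 2 ^ 15) + (2 * b 1) * (256 * γ * x 2 ^ 255) = 0 := by
      have : t * (b 0 * (16 * x 0 ^ 240 * x 2 ^ 15) +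
        (2 * b 1) * (256 * γ * x 2 ^ 255)) = 0 := by linear_combination e5
      exact (mul_eq_zero.1 this).resolve_left ht
    obtain ⟨g1, g2⟩ := h x (b 0) (2 * b 1) hx hc f3 f4 f5
    by_cases hs : s = 0
    · rw [hs] at e0 e1
      apply g1
      constructor
      · have : t * Af x = 0 := by linear_combination e0
        exact (mul_eq_zero.1 this).resolve_left ht
      · have : t * (2 * Gf γ x) = 0 := by linear_combination e1
        have := (mul_eq_zero.1 this).resolve_left ht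
        simpa using this
    · have hb2 : b 2 = 0 := by
        have : s * (4 * b 2 ^ 3) = 0 := by linear_combination e2
        have := (mul_eq_zero.1 this).resolve_left hs
        simpa using this
      apply g2
      rw [hb2] at h1
      linear_combination 16 * h1
  refine ⟨?_, ht⟩
  rw [ht] at e0 e1 e2
  by_contra hs
  have k : ∀ i : Fin 3, s * (4 * b i ^ 3) = 0 → b i = 0 := by
    intro i hi
    have := (mul_eq_zero.1 hi).resolve_left hs
    simpa using this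
  rcases hbne with h | h | h
  · exact h (k 0 (by linear_combination e0))
  · exact h (k 1 (by linear_combination e1))
  · exact h (k 2 (by linear_combination e2))

end Pool.Agent.K4H65.CN
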