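import Mathlib
import Pool.Agent.TH144.CN.Fib

/-!
# The singular points of the members of the pencil
-/

set_option autoImplicit false

namespace Pool.Agent.K4H65.CN

open Pool.Agent.TH144.CN (Af Gf)

namespace SmA

/-- the exceptional members of the pencil : both curves pass through a singular point -/
def SI : Set ℂ := (fun a : ℂ => -(1 + a ^ 16) / (-(a ^ 15 * (a + 1))) ^ 16) ''
  {a : ℂ | 15 * a ^ 17 + 14 * a ^ 16 + 16 * a + 15 = 0}

theorem SI_fin : SI.Finite := by
  refine Set.Finite.image _ ?_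
  have hp : (Polynomial.C (15 : ℂ) * Polynomial.X ^ 17 + Polynomial.C 14 * Polynomial.X ^ 16 +
      Polynomial.C 16 * Polynomial.X + Polynomial.C 15) ≠ 0 := by
    intro h
    have := congrArg (Polynomial.eval (0 : ℂ)) h
    simp at this
  refine (Polynomial.finite_setOfPred_isRoot hp).subset fun a ha => ?_
  simpa [Polynomial.IsRoot] using! ha

/-- the four values of the parameter -/
def KK : Set ℂ := {κ : ℂ | κ ^ 4 = -16}

theorem KK_fin : KK.Finite := by
  have hp : (Polynomial.X ^ 4 + Polynomial.C (16 : ℂ)) ≠ 0 := by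
    intro h
    have := congrArg (Polynomial.eval (0 : ℂ)) h
    simp at this
  refine (Polynomial.finite_setOfPred_isRoot hp).subset fun a ha => ?_
  have h1 : a ^ 4 = -16 := ha
  simp [Polynomial.IsRoot, h1]

def S0 : Set ℂ := (fun κ : ℂ => -1 / (16 * κ * (-(16 * κ) / 15) ^ 15)) '' KK

def S1 : Set ℂ := (fun κ : ℂ => -1 / (16 * κ *
  (-(16 * κ + (-15 / (16 * (1 + κ))) ^ 15) / 15) ^ 15)) '' KK

theorem norm_KK {κ : ℂ} (h : κ ^ 4 = -16) : ‖κ‖ = 2 := by
  have h1 : ‖κ‖ ^ 4 = 2 ^ 4 := by
    rw [← norm_pow, h]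
    norm_num
  exact (pow_left_inj₀ (norm_nonneg _) (by norm_num) (by norm_num)).1 h1

/-- the affine equations -/
theorem aff {γ y z κ : ℂ} (hS : γ ∉ SI ∪ S0 ∪ S1)
    (e1 : 15 * z ^ 16 + (y ^ 16) ^ 15 + 16 * κ = 0)
    (e2 : y = 0 ∨ 16 * y ^ 16 * (1 + κ) + 15 = 0)
    (e3 : z = 0 ∨ 1 + 16 * κ * γ * (z ^ 16) ^ 15 = 0) :
    ¬ (z ^ 16 + (y ^ 16) ^ 16 + (y ^ 16) ^ 15 = 0 ∧ 1 + (y ^ 16) ^ 16 + γ * (z ^ 16) ^ 16 = 0) ∧
      κ ^ 4 ≠ -16 := by
  have e2' : y ^ 16 = 0 ∨ 16 * y ^ 16 * (1 + κ) + 15 = 0 := by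
    rcases e2 with h | h
    · left; rw [h]; norm_num
    · right; exact h
  have e3' : z ^ 16 = 0 ∨ 1 + 16 * κ * γ * (z ^ 16) ^ 15 = 0 := by
    rcases e3 with h | h
    · left; rw [h]; norm_num
    · right; exact h
  generalize y ^ 16 = a at *
  generalize z ^ 16 = b at *
  clear e2 e3
  constructor
  · rintro ⟨hA, hG⟩
    rcases eq_or_ne a 0 with ha | ha
    · subst ha
      have hb : b = 0 := by simpa using hA
      subst hb
      norm_num at hG
    · have h2 := e2'.resolve_left ha
      have h3 : 15 * a ^ 17 + 14 * a ^ 16 + 16 * a + 15 = 0 := by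
        linear_combination h2 - a * e1 + 15 * a * hA
      have hb : b = -(a ^ 15 * (a + 1)) := by linear_combination hA
      have hb0 : b ≠ 0 := by
        intro hb0
        have h4 : a + 1 = 0 := by
          rw [hb0] at hb
          have h5 : a ^ 15 * (a + 1) = 0 := by linear_combination hb
          exact (mul_eq_zero.1 h5).resolve_left (pow_ne_zero _ ha)
        have h6 : a = -1 := by linear_combination h4
        rw [h6, hb0] at hG
        norm_num at hG
      apply hS
      left; left
      refine ⟨a, h3, ?_⟩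
      simp only
      rw [← hb, div_eq_iff (pow_ne_zero _ hb0)]
      linear_combination -hG
  · intro hκ
    have hn := norm_KK hκ
    have hκ0 : κ ≠ 0 := by
      intro h
      rw [h, norm_zero] at hn
      norm_num at hn
    rcases eq_or_ne a 0 with ha | ha
    · subst ha
      have hb : b = -(16 * κ) / 15 := by
        rw [eq_div_iff (by norm_num)]
        linear_combination e1
      have hb0 : b ≠ 0 := by
        rw [hb]
        exact div_ne_zero (neg_ne_zero.2 (mul_ne_zero (by norm_num) hκ0)) (by norm_num)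
      have h3 := e3'.resolve_left hb0
      apply hS
      left; right
      refine ⟨κ, hκ, ?_⟩
      simp only
      rw [← hb, div_eq_iff (mul_ne_zero (mul_ne_zero (by norm_num) hκ0) (pow_ne_zero _ hb0))]
      linear_combination -h3
    · have h2 := e2'.resolve_left ha
      have h1κ : 1 + κ ≠ 0 := by
        intro h
        rw [h] at h2
        norm_num at h2
      have ha2 : a = -15 / (16 * (1 + κ)) := by
        rw [eq_div_iff (mul_ne_zero (by norm_num) h1κ)]
        linear_combination h2
      have hb : b = -(16 * κ + a ^ 15) / 15 := by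
        rw [eq_div_iff (by norm_num)]
        linear_combination e1
      have hb0 : b ≠ 0 := by
        intro hb0
        have h4 : a ^ 15 = -(16 * κ) := by
          rw [hb0] at e1
          linear_combination e1
        have h5 : ‖a‖ ^ 15 = 32 := by
          rw [← norm_pow, h4, norm_neg, norm_mul, hn]
          norm_num
        have h6 : 1 ≤ ‖1 + κ‖ := by
          have := norm_sub_norm_le κ (-1)
          rw [sub_neg_eq_add, add_comm κ 1, norm_neg, norm_one, hn] at this
          linarith
        have h7 : ‖a‖ * (16 * ‖1 + κ‖) = 15 := by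
          have h8 : a * (16 * (1 + κ)) = -15 := by linear_combination h2
          have h9 := congrArg norm h8
          rw [norm_mul, norm_mul, norm_neg] at h9
          norm_num at h9
          exact h9
        have h8 : ‖a‖ ≤ 1 := by nlinarith [norm_nonneg a]
        have h9 : ‖a‖ ^ 15 ≤ 1 := pow_le_one₀ (norm_nonneg _) h8
        linarith
      have h3 := e3'.resolve_left hb0
      apply hS
      right
      refine ⟨κ, hκ, ?_⟩
      simp only
      rw [← ha2, ← hb, div_eq_iff (mul_ne_zero (mul_ne_zero (by norm_num) hκ0)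
        (pow_ne_zero _ hb0))]
      linear_combination -h3

end SmA

open SmA in
/-- a common critical point of the members of the pencil is neither a base point nor lies on a member
of the four special parameters -/
theorem smooth_alg : ∃ S : Set ℂ, S.Finite ∧ ∀ γ ∉ S, ∀ (x : Fin 3 → ℂ) (c0 c1 : ℂ), x ≠ 0 →
    (c0 ≠ 0 ∨ c1 ≠ 0) →
    c0*(240*x 0^239*x 2^16+16*x 0^15*x 1^240) + c1*(256*x 0^255) = 0 →
    c0*(256*x 1^255+240*x 0^16*x 1^239) + c1*(256*x 1^255) = 0 →
    c0*(16*x 0^240*x 2^15) + c1*(256*γ*x 2^255) = 0 →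
    ¬(Af x = 0 ∧ Gf γ x = 0) ∧ c1^4 ≠ -16*c0^4 := by
  refine ⟨{0} ∪ (SI ∪ S0 ∪ S1), (Set.finite_singleton 0).union ((SI_fin.union
    (KK_fin.image _)).union (KK_fin.image _)), ?_⟩
  intro γ hγ x c0 c1 hx hc e1 e2 e3
  have hγ0 : γ ≠ 0 := fun h => hγ (Or.inl h)
  have hS : γ ∉ SI ∪ S0 ∪ S1 := fun h => hγ (Or.inr h)
  unfold Af Gf
  have hx' : x 0 ≠ 0 ∨ x 1 ≠ 0 ∨ x 2 ≠ 0 := by
    by_contra hcon
    push Not at hcon
    apply hx
    funext i
    fin_cases i
    · exact hcon.1
    · exact hcon.2.1
    · exact hcon.2.2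
  clear hx
  generalize x 0 = X at *
  generalize x 1 = Y at *
  generalize x 2 = Z at *
  rcases eq_or_ne X 0 with hX | hX
  · subst hX
    have e2' : (c0 + c1) * Y ^ 255 = 0 := by
      have : 256 * ((c0 + c1) * Y ^ 255) = 0 := by
        rw [← e2]; ring
      exact (mul_eq_zero.1 this).resolve_left (by norm_num)
    have e3' : c1 * (γ * Z ^ 255) = 0 := by
      have : 256 * (c1 * (γ * Z ^ 255)) = 0 := by
        rw [← e3]; ring
      exact (mul_eq_zero.1 this).resolve_left (by norm_num)
    rcases eq_or_ne Y 0 with hY | hY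
    · subst hY
      have hZ : Z ≠ 0 := by
        rcases hx' with h | h | h
        · exact absurd rfl h
        · exact absurd rfl h
        · exact h
      have h1 : c1 = 0 := (mul_eq_zero.1 e3').resolve_right
        (mul_ne_zero hγ0 (pow_ne_zero _ hZ))
      subst h1
      have h0 : c0 ≠ 0 := hc.resolve_right (fun h => h rfl)
      constructor
      · rintro ⟨-, hG⟩
        have : γ * Z ^ 256 = 0 := by
          rw [← hG]; ring
        exact mul_ne_zero hγ0 (pow_ne_zero _ hZ) this
      · intro h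
        have : 16 * c0 ^ 4 = 0 := by linear_combination h
        exact mul_ne_zero (by norm_num) (pow_ne_zero _ h0) this
    · have h1 : c0 + c1 = 0 := (mul_eq_zero.1 e2').resolve_right (pow_ne_zero _ hY)
      have h2 : c1 = -c0 := by linear_combination h1
      have h0 : c0 ≠ 0 := by
        intro h0
        rw [h0, neg_zero] at h2
        exact hc.elim (fun h => h h0) (fun h => h h2)
      have hZ : Z = 0 := by
        have h3 : γ * Z ^ 255 = 0 := (mul_eq_zero.1 e3').resolve_left (by
          rw [h2]; exact neg_ne_zero.2 h0)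
        exact pow_eq_zero_iff (by norm_num) |>.1 ((mul_eq_zero.1 h3).resolve_left hγ0)
      subst hZ
      constructor
      · rintro ⟨hA, -⟩
        have : Y ^ 256 = 0 := by
          rw [← hA]; ring
        exact pow_ne_zero _ hY this
      · intro h
        rw [h2] at h
        have : 17 * c0 ^ 4 = 0 := by linear_combination h
        exact mul_ne_zero (by norm_num) (pow_ne_zero _ h0) this
  · have h0 : c0 ≠ 0 := by
      intro h0
      rw [h0, zero_mul, zero_add] at e1
      have h1 : c1 ≠ 0 := hc.resolve_left (fun h => h h0)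
      exact mul_ne_zero h1 (mul_ne_zero (by norm_num) (pow_ne_zero _ hX)) e1
    obtain ⟨y, rfl⟩ : ∃ y, Y = y * X := ⟨Y / X, (div_mul_cancel₀ _ hX).symm⟩
    obtain ⟨z, rfl⟩ : ∃ z, Z = z * X := ⟨Z / X, (div_mul_cancel₀ _ hX).symm⟩
    obtain ⟨κ, rfl⟩ : ∃ κ, c1 = κ * c0 := ⟨c1 / c0, (div_mul_cancel₀ _ h0).symm⟩
    have f1 : 15 * z ^ 16 + (y ^ 16) ^ 15 + 16 * κ = 0 := by
      have : (16 * c0 * X ^ 255) * (15 * z ^ 16 + (y ^ 16) ^ 15 + 16 * κ) = 0 := by
        rw [← e1]; ring
      exact (mul_eq_zero.1 this).resolve_left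
        (mul_ne_zero (mul_ne_zero (by norm_num) h0) (pow_ne_zero _ hX))
    have f2 : y = 0 ∨ 16 * y ^ 16 * (1 + κ) + 15 = 0 := by
      have : (16 * c0 * X ^ 255) * (y ^ 239 * (16 * y ^ 16 * (1 + κ) + 15)) = 0 := by
        rw [← e2]; ring
      have := (mul_eq_zero.1 this).resolve_left
        (mul_ne_zero (mul_ne_zero (by norm_num) h0) (pow_ne_zero _ hX))
      rcases mul_eq_zero.1 this with h | h
      · left; exact pow_eq_zero_iff (by norm_num) |>.1 h
      · right; exact h
    have f3 : z = 0 ∨ 1 + 16 * κ * γ * (z ^ 16) ^ 15 = 0 := by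
      have : (16 * c0 * X ^ 255) * (z ^ 15 * (1 + 16 * κ * γ * (z ^ 16) ^ 15)) = 0 := by
        rw [← e3]; ring
      have := (mul_eq_zero.1 this).resolve_left
        (mul_ne_zero (mul_ne_zero (by norm_num) h0) (pow_ne_zero _ hX))
      rcases mul_eq_zero.1 this with h | h
      · left; exact pow_eq_zero_iff (by norm_num) |>.1 h
      · right; exact h
    obtain ⟨g1, g2⟩ := aff hS f1 f2 f3
    constructor
    · rintro ⟨hA, hG⟩
      apply g1
      constructor
      · have : X ^ 256 * (z ^ 16 + (y ^ 16) ^ 16 + (y ^ 16) ^ 15) = 0 := by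
          rw [← hA]; ring
        exact (mul_eq_zero.1 this).resolve_left (pow_ne_zero _ hX)
      · have : X ^ 256 * (1 + (y ^ 16) ^ 16 + γ * (z ^ 16) ^ 16) = 0 := by
          rw [← hG]; ring
        exact (mul_eq_zero.1 this).resolve_left (pow_ne_zero _ hX)
    · intro h
      apply g2
      have : c0 ^ 4 * (κ ^ 4 - -16) = 0 := by linear_combination h
      exact sub_eq_zero.1 ((mul_eq_zero.1 this).resolve_left (pow_ne_zero _ h0))

end Pool.Agent.K4H65.CN
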