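import Pool.Agent.K4H65.CN.Fer

/-! The function field of the Fermat curve has transcendence degree one. -/

set_option autoImplicit false

namespace Pool.Agent.K4H65.CN

theorem Fer.basis {K : Type} [Field K] [Algebra ℂ K] {u t : K} (h : Fer K u t) :
    IsTranscendenceBasis ℂ (fun _ : Unit => u) := by
  have hind : AlgebraicIndependent ℂ (fun _ : Unit => u) :=
    algebraicIndependent_unique_type_iff.2 h.tr
  rw [hind.isTranscendenceBasis_iff_isAlgebraic]
  have hr : Set.range (fun _ : Unit => u) = {u} := by simp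
  rw [hr]
  have hu : u ∈ Algebra.adjoin ℂ {u} := Algebra.subset_adjoin rfl
  have hau : IsAlgebraic (Algebra.adjoin ℂ {u}) u :=
    isAlgebraic_algebraMap (⟨u, hu⟩ : Algebra.adjoin ℂ {u})
  have hat : IsAlgebraic (Algebra.adjoin ℂ {u}) t := by
    refine IsIntegral.isAlgebraic ⟨Polynomial.X ^ 16 + Polynomial.C (⟨u, hu⟩ ^ 16 + 1),
        Polynomial.monic_X_pow_add_C _ (by norm_num), ?_⟩
    have : (algebraMap (Algebra.adjoin ℂ {u}) K) ⟨u, hu⟩ = u := rfl
    rw [Polynomial.eval₂_add, Polynomial.eval₂_pow, Polynomial.eval₂_X,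
        Polynomial.eval₂_C, map_add, map_pow, map_one, this]
    linear_combination h.eq
  constructor
  intro x
  have hx : x ∈ IntermediateField.adjoin ℂ {u, t} := by rw [h.gen]; trivial
  induction hx using IntermediateField.adjoin_induction with
  | mem x hx =>
    rcases hx with rfl | hx
    · exact hau
    · rw [Set.mem_singleton_iff] at hx; rw [hx]; exact hat
  | algebraMap c => exact isAlgebraic_algebraMap (algebraMap ℂ (Algebra.adjoin ℂ {u}) c)
  | add x y _ _ hx hy => exact hx.add hy
  | inv x _ hx => exact hx.inv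
  | mul x y _ _ hx hy => exact hx.mul hy

theorem Fer.trdeg_eq {K : Type} [Field K] [Algebra ℂ K] {u t : K} (h : Fer K u t) :
    Algebra.trdeg ℂ K = 1 := by
  rw [← h.basis.cardinalMk_eq_trdeg]
  simp

end Pool.Agent.K4H65.CN
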