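import Pool.Agent.TH144.CN.Surf
import Pool.Agent.K4H65.CN.Fer

/-! The curve `Z` over a point `(1 : 0 : ζ)` and its function field. -/

set_option autoImplicit false

namespace Pool.Agent.K4H65.CN

section poly
open Polynomial

/-- the Fermat polynomial `Y^16 + (X^16+1)` over `ℂ[X]` -/
noncomputable def fm : Polynomial (Polynomial ℂ) := X ^ 16 + C (X ^ 16 + 1)

lemma fm_monic : fm.Monic := monic_X_pow_add_C _ (by norm_num)

lemma fm_natDegree : fm.natDegree = 16 := natDegree_X_pow_add_C

lemma fm_irr : Irreducible fm := by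
  obtain ⟨ρ, hρ⟩ : ∃ ρ : ℂ, ρ ^ 16 = -1 := IsAlgClosed.exists_pow_nat_eq _ (by norm_num)
  have hP : (Ideal.span {(X - C ρ : Polynomial ℂ)}).IsPrime := by
    rw [Ideal.span_singleton_prime (X_sub_C_ne_zero ρ)]
    exact prime_X_sub_C ρ
  refine irreducible_of_eisenstein_criterion hP ?_ ?_ ?_ ?_ fm_monic.isPrimitive
  · rw [fm_monic.leadingCoeff]
    exact (Ideal.ne_top_iff_one _).1 hP.ne_top
  · intro n hn
    rw [degree_eq_natDegree fm_monic.ne_zero, fm_natDegree] at hn
    have hn' : n < 16 := by exact_mod_cast hn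
    unfold fm
    rw [coeff_add, coeff_X_pow, if_neg hn'.ne, zero_add, coeff_C]
    split_ifs with h
    · rw [Ideal.mem_span_singleton, dvd_iff_isRoot]
      simp [hρ]
    · exact Ideal.zero_mem _
  · rw [degree_eq_natDegree fm_monic.ne_zero, fm_natDegree]; norm_num
  · unfold fm
    rw [coeff_add, coeff_X_pow, if_neg (by norm_num), zero_add, coeff_C_zero]
    rw [Ideal.span_singleton_pow, Ideal.mem_span_singleton]
    rintro ⟨q, hq⟩
    have h := congrArg (fun f => eval ρ (derivative f)) hq
    have h1 : (16 : ℂ) * ρ ^ 15 = 0 := by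
      simpa [derivative_pow] using h
    have h2 : ρ = 0 := by simpa using h1
    rw [h2] at hρ
    norm_num at hρ

/-- a polynomial vanishes at the generic point of the Fermat curve iff it is divisible by `fm` -/
lemma fer_dvd {K : Type} [Field K] [Algebra ℂ K] {u t : K} (htr : Transcendental ℂ u)
    (he : u ^ 16 + t ^ 16 + 1 = 0) (g : Polynomial (Polynomial ℂ)) :
    aevalAeval u t g = 0 ↔ fm ∣ g := by
  let _ : Algebra (Polynomial ℂ) K := (aeval u).toRingHom.toAlgebra
  have hmap : ∀ p : Polynomial ℂ, algebraMap (Polynomial ℂ) K p = aeval u p := fun p => rfl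
  have _inst : Module.IsTorsionFree (Polynomial ℂ) K := by
    rw [Module.isTorsionFree_iff_algebraMap_injective]
    exact transcendental_iff_injective.1 htr
  have hev : ∀ g : Polynomial (Polynomial ℂ), aevalAeval u t g = aeval t g := by
    intro g
    have : (aevalAeval u t : Polynomial (Polynomial ℂ) →ₐ[ℂ] K).toRingHom =
        (aeval (R := Polynomial ℂ) t).toRingHom := by
      refine Polynomial.ringHom_ext (fun a => ?_) ?_
      · simp [hmap]
      · simp
    exact congrArg (fun f : Polynomial (Polynomial ℂ) →+* K => f g) this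
  have h0 : aeval (R := Polynomial ℂ) t fm = 0 := by
    rw [← hev]
    unfold fm
    simp
    linear_combination he
  have hint : IsIntegral (Polynomial ℂ) t := ⟨fm, fm_monic, h0⟩
  obtain ⟨c, hc⟩ := minpoly.isIntegrallyClosed_dvd hint h0
  have hu : IsUnit c := (fm_irr.isUnit_or_isUnit hc).resolve_left (minpoly.not_isUnit _ _)
  rw [hev, minpoly.isIntegrallyClosed_dvd_iff hint]
  have : Associated (minpoly (Polynomial ℂ) t) fm := by
    rw [hc]
    exact (associated_mul_unit_right _ _ hu)
  exact this.dvd_iff_dvd_left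

/-- a polynomial which vanishes at all complex points of the Fermat curve is divisible by `fm` -/
lemma cpx_dvd (g : Polynomial (Polynomial ℂ))
    (hg : ∀ u0 t0 : ℂ, u0 ^ 16 + t0 ^ 16 + 1 = 0 → aevalAeval u0 t0 g = 0) : fm ∣ g := by
  rw [← modByMonic_eq_zero_iff_dvd fm_monic]
  set r := g %ₘ fm with hr
  have hfm : ∀ u0 t0 : ℂ, u0 ^ 16 + t0 ^ 16 + 1 = 0 → aevalAeval u0 t0 fm = 0 := by
    intro u0 t0 h
    unfold fm
    simp
    linear_combination h
  have hr0 : ∀ u0 t0 : ℂ, u0 ^ 16 + t0 ^ 16 + 1 = 0 → aevalAeval u0 t0 r = 0 := by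
    intro u0 t0 h
    have h1 := congrArg (aevalAeval u0 t0) (modByMonic_add_div g fm)
    rw [map_add, map_mul, hfm u0 t0 h, hg u0 t0 h, zero_mul, add_zero] at h1
    exact h1
  have hdeg : r.natDegree < 16 := by
    have := natDegree_modByMonic_lt g fm_monic (fun h => by
      have := congrArg natDegree h
      rw [fm_natDegree] at this
      simp at this)
    rwa [fm_natDegree] at this
  have hω := Complex.isPrimitiveRoot_exp 16 (by norm_num)
  set ω := Complex.exp (2 * Real.pi * Complex.I / (16 : ℕ)) with hωd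
  have hω16 : ω ^ 16 = 1 := hω.pow_eq_one
  have key : ∀ u0 : ℂ, u0 ^ 16 + 1 ≠ 0 → r.map (evalRingHom u0) = 0 := by
    intro u0 hu0
    obtain ⟨t0, ht0⟩ : ∃ t0 : ℂ, t0 ^ 16 = -(u0 ^ 16 + 1) :=
      IsAlgClosed.exists_pow_nat_eq _ (by norm_num)
    have ht00 : t0 ≠ 0 := by
      rintro rfl
      apply hu0
      have : (0 : ℂ) = -(u0 ^ 16 + 1) := by simpa using ht0
      linear_combination this
    refine eq_zero_of_natDegree_lt_card_of_eval_eq_zero (ι := Fin 16) _
      (f := fun k => t0 * ω ^ (k : ℕ)) ?_ ?_ ?_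
    · intro a b hab
      have h1 : ω ^ (a : ℕ) = ω ^ (b : ℕ) := mul_left_cancel₀ ht00 hab
      exact Fin.ext (hω.pow_inj a.2 b.2 h1)
    · intro k
      have h1 := hr0 u0 (t0 * ω ^ (k : ℕ)) (by
        rw [mul_pow, ← pow_mul, mul_comm (k : ℕ) 16, pow_mul, hω16, one_pow, mul_one, ht0]
        ring)
      rw [coe_aevalAeval_eq_evalEval] at h1
      rw [← eval₂_eq_eval_map, eval₂_evalRingHom]
      exact h1
    · refine lt_of_le_of_lt (natDegree_map_le) ?_
      simpa using hdeg
  ext1 n
  rw [coeff_zero]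
  by_contra hn
  have hfin : {u0 : ℂ | u0 ^ 16 + 1 ≠ 0} ⊆ (r.coeff n).roots.toFinset := by
    intro u0 hu0
    have h1 := congrArg (fun p => coeff p n) (key u0 hu0)
    simp only [coeff_map, coe_evalRingHom, coeff_zero] at h1
    simpa [hn] using h1
  have hinf : {u0 : ℂ | u0 ^ 16 + 1 ≠ 0}.Infinite := by
    have h1 : {u0 : ℂ | u0 ^ 16 + 1 = 0}.Finite := by
      have hne : (X ^ 16 + C 1 : Polynomial ℂ) ≠ 0 := (monic_X_pow_add_C _ (by norm_num)).ne_zero
      refine (X ^ 16 + C 1 : Polynomial ℂ).roots.toFinset.finite_toSet.subset ?_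
      intro x hx
      have : x ^ 16 + 1 = 0 := hx
      simp only [Finset.mem_coe, Multiset.mem_toFinset, mem_roots hne, IsRoot.def]
      simpa using this
    exact h1.infinite_compl
  exact hinf ((Finset.finite_toSet _).subset hfin)

end poly


open MvPolynomial
open Pool.Agent.TH144.CN

lemma BiHom_neg {P : BiPoly} {d e : ℕ} (h : BiHom P d e) : BiHom (-P) d e := by
  have h1 := (C_hom (-1)).mul h
  simpa using h1

/-- the curve in the surface over the point `(1 : 0 : ζ)` -/
noncomputable def Zs (ζ : ℂ) (_hζ : ζ ^ 4 = -1) : ClosedSet where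
  eqs := {B 1, B 2 - C ζ * B 0, Ap}
  hom := by
    rintro G (rfl | rfl | rfl)
    · exact ⟨_, _, B_hom 1⟩
    · refine ⟨1, 0, ?_⟩
      rw [sub_eq_add_neg]
      have h1 := (C_hom ζ).mul (B_hom 0)
      exact (B_hom 2).add (BiHom_neg h1)
    · exact ⟨_, _, Ap_hom⟩

lemma mem_Zs {L : Type} [Field L] [Algebra ℂ L] {ζ : ℂ} {hζ : ζ ^ 4 = -1} {b x : Fin 3 → L} :
    (Zs ζ hζ).Mem b x ↔ b ≠ 0 ∧ x ≠ 0 ∧ b 1 = 0 ∧ b 2 = algebraMap ℂ L ζ * b 0 ∧
      x 0 ^ 240 * x 2 ^ 16 + x 1 ^ 256 + x 0 ^ 16 * x 1 ^ 240 = 0 := by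
  unfold ClosedSet.Mem Zs
  simp only [Set.mem_insert_iff, Set.mem_singleton_iff, forall_eq_or_imp, forall_eq, aeval_Ap]
  simp [B, sub_eq_zero]

/-- scaling of the coordinates in a bihomogeneous polynomial -/
lemma aeval_smul {L : Type} [Field L] [Algebra ℂ L] {G : BiPoly} {d e : ℕ} (h : BiHom G d e)
    (s t : L) (p q : Fin 3 → L) :
    aeval (Sum.elim (s • p) (t • q)) G = s ^ d * t ^ e * aeval (Sum.elim p q) G := by
  rw [aeval_def, aeval_def, eval₂_eq', eval₂_eq', Finset.mul_sum]
  refine Finset.sum_congr rfl fun m hm => ?_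
  have hw := h (mem_support_iff.1 hm)
  rw [Finsupp.weight_apply, Finsupp.sum_fintype _ _ (by simp)] at hw
  rw [Fintype.sum_sum_type] at hw
  simp only [Sum.elim_inl, Sum.elim_inr] at hw
  have h1 : ∑ i, m (Sum.inl i) = d := by
    have := congrArg Prod.fst hw
    simpa [Prod.fst_sum] using this
  have h2 : ∑ i, m (Sum.inr i) = e := by
    have := congrArg Prod.snd hw
    simpa [Prod.snd_sum] using this
  rw [Fintype.prod_sum_type, Fintype.prod_sum_type]
  simp only [Sum.elim_inl, Sum.elim_inr, Pi.smul_apply, smul_eq_mul, mul_pow,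
    Finset.prod_mul_distrib, Finset.prod_pow_eq_pow_sum, h1, h2]
  ring

/-- dehomogenisation along the generic point of the curve -/
noncomputable def phiZ (ζ : ℂ) : BiPoly →ₐ[ℂ] Polynomial (Polynomial ℂ) :=
  MvPolynomial.aeval (Sum.elim ![1, 0, Polynomial.C (Polynomial.C ζ)]
    ![1, Polynomial.C Polynomial.X, Polynomial.C Polynomial.X ^ 15 * Polynomial.X])

lemma phiZ_aeval {K : Type} [Field K] [Algebra ℂ K] (ζ : ℂ) (u t : K) (G : BiPoly) :
    Polynomial.aevalAeval u t (phiZ ζ G) = aeval (Sum.elim (zb K ζ) (zx u t)) G := by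
  have : (Polynomial.aevalAeval u t).comp (phiZ ζ) = aeval (Sum.elim (zb K ζ) (zx u t)) := by
    refine MvPolynomial.algHom_ext fun i => ?_
    rcases i with i | i <;> fin_cases i <;> simp [phiZ, zb, zx] <;> ring
  exact congrArg (fun f : BiPoly →ₐ[ℂ] K => f G) this

lemma exists_t0 {a b : ℂ} (hA : b ^ 16 + a ^ 256 + a ^ 240 = 0) :
    ∃ t0 : ℂ, a ^ 16 + t0 ^ 16 + 1 = 0 ∧ b = a ^ 15 * t0 := by
  by_cases hu : a = 0
  · obtain ⟨ρ, hρ⟩ : ∃ ρ : ℂ, ρ ^ 16 = -1 := IsAlgClosed.exists_pow_nat_eq _ (by norm_num)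
    refine ⟨ρ, by rw [hu, hρ]; ring, ?_⟩
    rw [hu] at hA ⊢
    have : b ^ 16 = 0 := by simpa using hA
    have h2 : b = 0 := by simpa using this
    rw [h2]; simp
  · refine ⟨b / a ^ 15, ?_, ?_⟩
    · have h240 : a ^ 240 ≠ 0 := pow_ne_zero _ hu
      have h1 : (b / a ^ 15) ^ 16 = b ^ 16 / a ^ 240 := by
        rw [div_pow, ← pow_mul]
      rw [h1]
      field_simp
      linear_combination hA
    · field_simp

lemma Zs_field_van {ζ : ℂ} {hζ : ζ ^ 4 = -1} {G : BiPoly} {d e : ℕ} (h : BiHom G d e) :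
    (∀ u0 t0 : ℂ, u0 ^ 16 + t0 ^ 16 + 1 = 0 → aeval (Sum.elim (zb ℂ ζ) (zx u0 t0)) G = 0) ↔
      ∀ p q : Fin 3 → ℂ, (Zs ζ hζ).Mem p q → aeval (Sum.elim p q) G = 0 := by
  constructor
  · intro H p q hpq
    obtain ⟨hp, hq, hp1, hp2, hA⟩ := mem_Zs.1 hpq
    rw [Algebra.algebraMap_self_apply] at hp2
    have hp' : p = p 0 • zb ℂ ζ := by
      funext i
      fin_cases i <;> simp [zb, hp1, hp2, mul_comm]
    by_cases hq0 : q 0 = 0
    · -- the point at infinity
      have hq1 : q 1 = 0 := by
        rw [hq0] at hA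
        simpa using hA
      obtain ⟨ρ, hρ⟩ : ∃ ρ : ℂ, ρ ^ 16 = -1 := IsAlgClosed.exists_pow_nat_eq _ (by norm_num)
      have hρ0 : ρ ≠ 0 := by
        rintro rfl
        norm_num at hρ
      let w : ℝ → ℂ := fun s => ρ * (((1 + s ^ 16) ^ ((16 : ℕ)⁻¹ : ℝ) : ℝ) : ℂ)
      have hw : ∀ s, w s ^ 16 = -(1 + (s : ℂ) ^ 16) := by
        intro s
        have h1 : ((1 + s ^ 16) ^ ((16 : ℕ)⁻¹ : ℝ) : ℝ) ^ 16 = 1 + s ^ 16 :=
          Real.rpow_inv_natCast_pow (by positivity) (by norm_num)
        simp only [w]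
        rw [mul_pow, hρ, ← Complex.ofReal_pow, h1]
        push_cast
        ring
      have hwc : Continuous w := by
        refine continuous_const.mul (Complex.continuous_ofReal.comp ?_)
        refine Continuous.rpow_const (by fun_prop) fun s => Or.inl ?_
        positivity
      let f : ℝ → ℂ := fun s => aeval (Sum.elim (zb ℂ ζ) ![(s : ℂ) ^ 16, (s : ℂ) ^ 15, w s]) G
      have hfc : Continuous f := by
        have h1 : Continuous fun s : ℝ =>
            (Sum.elim (zb ℂ ζ) ![(s : ℂ) ^ 16, (s : ℂ) ^ 15, w s] : Fin 3 ⊕ Fin 3 → ℂ) := by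
          refine continuous_pi fun i => ?_
          rcases i with i | i
          · exact continuous_const
          · fin_cases i
            · simp only [Sum.elim_inr]
              exact (Complex.continuous_ofReal.pow 16)
            · simp only [Sum.elim_inr]
              exact (Complex.continuous_ofReal.pow 15)
            · exact hwc
        have h2 : Continuous fun v : Fin 3 ⊕ Fin 3 → ℂ => aeval v G := by
          simp only [MvPolynomial.aeval_eq_eval]
          exact MvPolynomial.continuous_eval G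
        exact h2.comp h1
      have hf0 : ∀ s : ℝ, s ≠ 0 → f s = 0 := by
        intro s hs
        have hs' : (s : ℂ) ≠ 0 := by exact_mod_cast hs
        have hcv : (1 / (s : ℂ)) ^ 16 + (w s / s) ^ 16 + 1 = 0 := by
          rw [div_pow, div_pow, hw s]
          field_simp
          ring
        have h1 := H (1 / s) (w s / s) hcv
        have h2 : (![(s : ℂ) ^ 16, (s : ℂ) ^ 15, w s] : Fin 3 → ℂ) =
            ((s : ℂ) ^ 16) • zx (1 / (s : ℂ)) (w s / s) := by
          funext i
          fin_cases i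
          · simp [zx]
          · simp only [zx]
            simp
            field_simp
          · simp only [zx]
            simp
            field_simp
        simp only [f]
        rw [h2]
        have h3 := aeval_smul h 1 ((s : ℂ) ^ 16) (zb ℂ ζ) (zx (1 / (s : ℂ)) (w s / s))
        rw [one_smul] at h3
        rw [h3, h1, mul_zero]
      have hf00 : f 0 = 0 := by
        have := hfc.ext_on (dense_compl_singleton (0 : ℝ)) continuous_const
          (fun s hs => hf0 s hs)
        exact congrFun this 0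
      have hw0 : w 0 ≠ 0 := by
        simp [w, hρ0]
      have hq' : q = (q 2 / w 0) • ![((0 : ℝ) : ℂ) ^ 16, ((0 : ℝ) : ℂ) ^ 15, w 0] := by
        funext i
        fin_cases i
        · simp [hq0]
        · simp [hq1]
        · simp
          field_simp
      rw [hp', hq', aeval_smul h]
      simp only [f] at hf00
      rw [hf00, mul_zero]
    · have hA' : (q 2 / q 0) ^ 16 + (q 1 / q 0) ^ 256 + (q 1 / q 0) ^ 240 = 0 := by
        field_simp
        linear_combination hA
      obtain ⟨t0, ht0, hb⟩ := exists_t0 hA'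
      have hq' : q = q 0 • zx (q 1 / q 0) t0 := by
        funext i
        fin_cases i
        · simp [zx]
        · simp only [zx]
          simp
          field_simp
        · simp only [zx]
          simp
          rw [← hb]
          field_simp
      rw [hp', hq', aeval_smul h, H _ _ ht0, mul_zero]
  · intro H u0 t0 h0
    refine H _ _ (mem_Zs.2 ⟨?_, ?_, ?_, ?_, ?_⟩)
    · intro h1
      have := congrFun h1 0
      simp [zb] at this
    · intro h1
      have := congrFun h1 0
      simp [zx] at this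
    · simp [zb]
    · simp [zb]
    · simp [zx]
      linear_combination u0 ^ 240 * h0

theorem Zs_field {K : Type} [Field K] [Algebra ℂ K] {u t : K} (h : Fer K u t) (ζ : ℂ)
    (hζ : ζ ^ 4 = -1) : (Zs ζ hζ).FunctionField K (zb K ζ) (zx u t) where
  mem := by
    refine mem_Zs.2 ⟨?_, ?_, ?_, ?_, ?_⟩
    · intro h1
      have := congrFun h1 0
      simp [zb] at this
    · intro h1
      have := congrFun h1 0
      simp [zx] at this
    · simp [zb]
    · simp [zb]
    · simp [zx]
      linear_combination u ^ 240 * h.eq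
  van := by
    intro G d e hG
    rw [← Zs_field_van (hζ := hζ) hG, ← phiZ_aeval, fer_dvd h.tr h.eq]
    constructor
    · rintro ⟨q, hq⟩ u0 t0 h0
      rw [← phiZ_aeval, hq, map_mul]
      have : Polynomial.aevalAeval u0 t0 fm = 0 := by
        unfold fm
        simp
        linear_combination h0
      rw [this, zero_mul]
    · intro H
      refine cpx_dvd _ fun u0 t0 h0 => ?_
      rw [phiZ_aeval]
      exact H u0 t0 h0
  gen := by
    have hu0 : u ≠ 0 := by
      rintro rfl
      exact h.tr (isAlgebraic_zero)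
    rw [eq_top_iff, ← h.gen, IntermediateField.adjoin_le_iff]
    set F := IntermediateField.adjoin ℂ
      ({f | ∃ i j, zb K ζ j ≠ 0 ∧ f = zb K ζ i / zb K ζ j} ∪
        {f | ∃ i j, zx u t j ≠ 0 ∧ f = zx u t i / zx u t j}) with hF
    have hu : u ∈ F := by
      refine IntermediateField.subset_adjoin _ _ (Or.inr ⟨1, 0, ?_, ?_⟩)
      · simp [zx]
      · simp [zx]
    have hut : u ^ 15 * t ∈ F := by
      refine IntermediateField.subset_adjoin _ _ (Or.inr ⟨2, 0, ?_, ?_⟩)
      · simp [zx]
      · simp [zx]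
    have ht : t ∈ F := by
      have : t = (u ^ 15 * t) / u ^ 15 := by field_simp
      rw [this]
      exact F.div_mem hut (pow_mem hu 15)
    rintro x (rfl | rfl)
    · exact hu
    · exact ht

end Pool.Agent.K4H65.CN
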